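import Pool.Agent.R916.OP.Poly

/-!
The code of a point of the polytope: it determines and is determined by the tight inequalities.
-/

namespace Pool.Agent.R916.OP

open Finset
open Pool.Agent.W304.HL

abbrev Code (n : ℕ) := Bool × Bool × Option (ZMod n × Bool → St)

section

variable {n : ℕ} {Y : Type*} [Fintype Y] (e : Bool ⊕ (ZMod n × Bool) ≃ Y)

open Classical in
/-- the word of a point -/
noncomputable def stt (x : Y → ℝ) (p : ZMod n × Bool) : St :=
  if x (yp e p) = x (yb e) then .Z else if x (yp e p) = x (yt e) then .O
    else if x (yp e p) = x (yp e (pr p)) then .C else .N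

open Classical in
/-- the code of a point -/
noncomputable def code (x : Y → ℝ) : Code n :=
  (decide (x (yb e) = 0), decide (x (yt e) = 1),
    if x (yb e) = x (yt e) then none else some (stt e x))

/-- the tight inequalities of a code -/
def mt (c : Code n) : Set (Con n) := {i | match i with
  | .b0 => c.1 = true
  | .t1 => c.2.1 = true
  | .bt => c.2.2 = none
  | .lo p => ∀ w, c.2.2 = some w → w p = .Z
  | .hi p => ∀ w, c.2.2 = some w → w p = .O
  | .st p => ∀ w, c.2.2 = some w → (w p = .C ∨ (w p = .Z ∧ w (pr p) = .Z) ∨
      (w p = .O ∧ w (pr p) = .O))}

open Classical in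
/-- the code of a set of tight inequalities -/
noncomputable def ct (T : Set (Con n)) : Code n :=
  (decide (.b0 ∈ T), decide (.t1 ∈ T), if .bt ∈ T then none else
    some (fun p => if .lo p ∈ T then .Z else if .hi p ∈ T then .O else if .st p ∈ T then .C else .N))

theorem ct_tight (x : Y → ℝ) : ct (tight (cc e) (dd (n := n)) x) = code e x := by
  unfold ct code stt
  simp only [t_b0, t_t1, t_bt, t_lo, t_hi, t_st]

omit [Fintype Y] in
theorem stt_Z {x : Y → ℝ} {p : ZMod n × Bool} : stt e x p = .Z ↔ x (yp e p) = x (yb e) := by
  unfold stt
  split_ifs <;> simp_all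

omit [Fintype Y] in
theorem stt_O {x : Y → ℝ} {p : ZMod n × Bool} (h : x (yb e) ≠ x (yt e)) :
    stt e x p = .O ↔ x (yp e p) = x (yt e) := by
  unfold stt
  split_ifs with h1 h2 h3
  · rw [h1]; simp [h]
  · simp [h2]
  · simp [h2]
  · simp [h2]

omit [Fintype Y] in
theorem stt_C {x : Y → ℝ} {p : ZMod n × Bool} :
    stt e x p = .C ↔ (x (yp e p) ≠ x (yb e) ∧ x (yp e p) ≠ x (yt e) ∧
      x (yp e p) = x (yp e (pr p))) := by
  unfold stt
  split_ifs with h1 h2 h3 <;> simp_all

omit [Fintype Y] in
theorem stt_N {x : Y → ℝ} {p : ZMod n × Bool} :
    stt e x p = .N ↔ (x (yp e p) ≠ x (yb e) ∧ x (yp e p) ≠ x (yt e) ∧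
      x (yp e p) ≠ x (yp e (pr p))) := by
  unfold stt
  split_ifs with h1 h2 h3 <;> simp_all

theorem mt_code {x : Y → ℝ} (hx : InK e x) : mt (code e x) = tight (cc e) (dd (n := n)) x := by
  by_cases h : x (yb e) = x (yt e)
  · have hall : ∀ p, x (yp e p) = x (yb e) := fun p =>
      le_antisymm (by rw [h]; exact hx.hi p) (hx.lo p)
    have hc : (code e x).2.2 = none := by
      unfold code
      exact if_pos h
    ext i
    cases i with
    | b0 => rw [t_b0]; exact decide_eq_true_iff
    | t1 => rw [t_t1]; exact decide_eq_true_iff
    | bt => rw [t_bt]; exact ⟨fun _ => h, fun _ => hc⟩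
    | lo p =>
      rw [t_lo]
      refine ⟨fun _ => hall p, fun _ => ?_⟩
      intro w hw
      rw [hc] at hw
      cases hw
    | hi p =>
      rw [t_hi]
      refine ⟨fun _ => by rw [← h]; exact hall p, fun _ => ?_⟩
      intro w hw
      rw [hc] at hw
      cases hw
    | st p =>
      rw [t_st]
      refine ⟨fun _ => by rw [hall, hall], fun _ => ?_⟩
      intro w hw
      rw [hc] at hw
      cases hw
  · have hc : (code e x).2.2 = some (stt e x) := by
      unfold code
      exact if_neg h
    have hw : ∀ P : (ZMod n × Bool → St) → Prop,
        (∀ w, (code e x).2.2 = some w → P w) ↔ P (stt e x) := by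
      intro P
      rw [hc]
      constructor
      · intro h'; exact h' _ rfl
      · intro h' w hw
        cases hw
        exact h'
    ext i
    cases i with
    | b0 => rw [t_b0]; exact decide_eq_true_iff
    | t1 => rw [t_t1]; exact decide_eq_true_iff
    | bt =>
      rw [t_bt]
      refine ⟨fun h' => ?_, fun h' => absurd h' h⟩
      have h'' : (code e x).2.2 = none := h'
      rw [hc] at h''
      cases h''
    | lo p =>
      rw [t_lo, ← stt_Z]
      exact hw (fun w => w p = .Z)
    | hi p =>
      rw [t_hi, ← stt_O e h]
      exact hw (fun w => w p = .O)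
    | st p =>
      rw [t_st]
      refine (hw (fun w => w p = .C ∨ (w p = .Z ∧ w (pr p) = .Z) ∨
        (w p = .O ∧ w (pr p) = .O))).trans ?_
      constructor
      · rintro (h1 | ⟨h1, h2⟩ | ⟨h1, h2⟩)
        · exact ((stt_C e).1 h1).2.2
        · rw [(stt_Z e).1 h1, (stt_Z e).1 h2]
        · rw [(stt_O e h).1 h1, (stt_O e h).1 h2]
      · intro h'
        by_cases h1 : x (yp e p) = x (yb e)
        · exact Or.inr (Or.inl ⟨(stt_Z e).2 h1, (stt_Z e).2 (h' ▸ h1)⟩)
        · by_cases h2 : x (yp e p) = x (yt e)
          · exact Or.inr (Or.inr ⟨(stt_O e h).2 h2, (stt_O e h).2 (h' ▸ h2)⟩)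
          · exact Or.inl ((stt_C e).2 ⟨h1, h2, h'⟩)

theorem ncard_image_code (s : Set (Y → ℝ)) (hs : ∀ x ∈ s, InK e x) :
    (tight (cc e) (dd (n := n)) '' s).ncard = (code e '' s).ncard := by
  have h1 : code e '' s = ct '' (tight (cc e) (dd (n := n)) '' s) := by
    rw [Set.image_image]
    apply Set.image_congr
    intro x _
    exact (ct_tight e x).symm
  rw [h1]
  symm
  apply Set.InjOn.ncard_image
  rintro _ ⟨x, hx, rfl⟩ _ ⟨y, hy, rfl⟩ h
  rw [ct_tight, ct_tight] at h
  rw [← mt_code e (hs x hx), ← mt_code e (hs y hy), h]

/-- the dimension of a code -/
noncomputable def dimc [NeZero n] : Code n → ℕ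
  | (A, B, none) => if A = true ∨ B = true then 0 else 1
  | (A, B, some w) => (if A = true then 0 else 1) + (if B = true then 0 else 1) + dimw w

omit [Fintype Y] in
theorem e_cases (P : Y → Prop) (h1 : P (yb e)) (h2 : P (yt e)) (h3 : ∀ p, P (yp e p)) (a : Y) :
    P a := by
  obtain ⟨s, rfl⟩ := e.surjective a
  rcases s with b | p
  · cases b
    · exact h1
    · exact h2
  · exact h3 p

theorem ncard_e (Q : Y → Prop) [DecidablePred Q] [NeZero n] :
    Set.ncard {a | Q a} = (Finset.univ.filter (fun p => Q (yp e p))).card +
      ((if Q (yb e) then 1 else 0) + (if Q (yt e) then 1 else 0)) := by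
  have h1 : {a | Q a}.ncard = ∑ a : Y, if Q a then 1 else 0 := by
    rw [← Finset.card_filter, ← Set.ncard_coe_finset]
    congr 1
    ext a
    simp
  rw [h1, ← e.sum_comp, Fintype.sum_sum_type, Fintype.sum_bool, Finset.card_filter, add_comm,
    add_comm (if Q (e (Sum.inl true)) then 1 else 0)]
  rfl

theorem finrank_dirn [NeZero n] {x : Y → ℝ} (hx : InK e x) :
    Module.finrank ℝ (dirn (cc e) (tight (cc e) (dd (n := n)) x)) = dimc (code e x) := by
  classical
  by_cases h : x (yb e) = x (yt e)
  · have hall : ∀ p, x (yp e p) = x (yb e) := fun p =>
      le_antisymm (by rw [h]; exact hx.hi p) (hx.lo p)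
    set A := x (yb e) = 0 with hA
    set B := x (yt e) = 1 with hB
    have hcode : code e x = (decide A, decide B, none) := by
      unfold code
      rw [if_pos h]
    rw [hcode]
    have hD : ∀ y, y ∈ dirn (cc e) (tight (cc e) (dd (n := n)) x) ↔
        ∀ a, y a = ((fun _ => if A ∨ B then none else some (yb e) : Y → Option Y) a).elim 0 y := by
      intro y
      rw [mem_dirn]
      constructor
      · intro hy
        have k1 : y (yb e) = y (yt e) := by
          have := hy .bt ((t_bt e).2 h)
          simp only [cc, LinearMap.sub_apply, ev_apply] at this
          linarith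
        have k2 : ∀ p, y (yp e p) = y (yb e) := fun p => by
          have := hy (.lo p) ((t_lo e).2 (hall p))
          simp only [cc, LinearMap.sub_apply, ev_apply] at this
          linarith
        have k3 : ∀ a, y a = y (yb e) := fun a =>
          e_cases e (fun a => y a = y (yb e)) rfl k1.symm k2 a
        intro a
        by_cases hAB : A ∨ B
        · simp only [if_pos hAB, Option.elim_none]
          rcases hAB with hA' | hB'
          · have := hy .b0 ((t_b0 e).2 hA')
            simp only [cc, LinearMap.neg_apply, ev_apply] at this
            rw [k3]
            linarith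
          · have := hy .t1 ((t_t1 e).2 hB')
            simp only [cc, ev_apply] at this
            rw [k3, k1]
            exact this
        · simp only [if_neg hAB, Option.elim_some]
          exact k3 a
      · intro hy i hi
        have k3 : ∀ a, y a = y (yb e) := by
          intro a
          rw [hy a, hy (yb e)]
        cases i with
        | b0 =>
          have hA' : A := (t_b0 e).1 hi
          have := hy (yb e)
          simp only [if_pos (Or.inl hA' : A ∨ B), Option.elim_none] at this
          simp only [cc, LinearMap.neg_apply, ev_apply, this, neg_zero]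
        | t1 =>
          have hB' : B := (t_t1 e).1 hi
          have := hy (yt e)
          simp only [if_pos (Or.inr hB' : A ∨ B), Option.elim_none] at this
          simp only [cc, ev_apply, this]
        | bt => simp only [cc, LinearMap.sub_apply, ev_apply, k3 (yt e), sub_self]
        | lo p => simp only [cc, LinearMap.sub_apply, ev_apply, k3 (yp e p), sub_self]
        | hi p => simp only [cc, LinearMap.sub_apply, ev_apply, k3 (yp e p), k3 (yt e), sub_self]
        | st p =>
          simp only [cc, LinearMap.sub_apply, ev_apply, k3 (yp e (sm p)), k3 (yp e (la p)), sub_self]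
    rw [finrank_root _ ?_ _ hD, ncard_e e]
    · by_cases hAB : A ∨ B
      · simp [dimc, hAB]
      · have hne : ∀ p, yb e ≠ yp e p := fun p h' => by
          have := e.injective h'
          cases this
        have hne' : yb e ≠ yt e := fun h' => by
          have := e.injective h'
          cases this
        simp [dimc, hAB, hne, hne']
    · intro a b hab
      exact hab
  · -- the main case
    set A := x (yb e) = 0 with hA
    set B := x (yt e) = 1 with hB
    set w := stt e x with hw
    have hcode : code e x = (decide A, decide B, some w) := by
      unfold code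
      rw [if_neg h]
    rw [hcode]
    obtain ⟨R, hR1, hR2, hR3, ⟨p₀, hR4⟩, hR5⟩ := exists_root w
    let ρ : Y → Option Y := fun a => match e.symm a with
      | .inl false => if A then none else some (yb e)
      | .inl true => if B then none else some (yt e)
      | .inr p => match w (R p) with
        | .Z => if A then none else some (yb e)
        | .O => if B then none else some (yt e)
        | .N => some (yp e (R p))
        | .C => some (yp e (R p))
    have ρb : ρ (yb e) = if A then none else some (yb e) := by
      simp only [ρ, yb, Equiv.symm_apply_apply]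
    have ρt : ρ (yt e) = if B then none else some (yt e) := by
      simp only [ρ, yt, Equiv.symm_apply_apply]
    have ρp : ∀ p, ρ (yp e p) = match w (R p) with
        | .Z => if A then none else some (yb e)
        | .O => if B then none else some (yt e)
        | .N => some (yp e (R p))
        | .C => some (yp e (R p)) := by
      intro p
      simp only [ρ, yp, Equiv.symm_apply_apply]
    have hρ : ∀ a b, ρ a = some b → ρ b = some b := by
      intro a
      apply e_cases e (fun a => ∀ b, ρ a = some b → ρ b = some b)
      · intro b hb
        rw [ρb] at hb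
        by_cases hA' : A
        · rw [if_pos hA'] at hb; cases hb
        · rw [if_neg hA'] at hb
          cases hb
          rw [ρb, if_neg hA']
      · intro b hb
        rw [ρt] at hb
        by_cases hB' : B
        · rw [if_pos hB'] at hb; cases hb
        · rw [if_neg hB'] at hb
          cases hb
          rw [ρt, if_neg hB']
      · intro p b hb
        rw [ρp] at hb
        rcases hwp : w (R p) with _ | _ | _ | _
        · rw [hwp] at hb
          by_cases hA' : A
          · simp only [if_pos hA'] at hb; cases hb
          · simp only [if_neg hA'] at hb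
            cases hb
            rw [ρb, if_neg hA']
        · rw [hwp] at hb
          by_cases hB' : B
          · simp only [if_pos hB'] at hb; cases hb
          · simp only [if_neg hB'] at hb
            cases hb
            rw [ρt, if_neg hB']
        · rw [hwp] at hb
          cases hb
          rw [ρp, hR3, hwp]
        · rw [hwp] at hb
          cases hb
          rw [ρp, hR3, hwp]
    have hD : ∀ y, y ∈ dirn (cc e) (tight (cc e) (dd (n := n)) x) ↔ ∀ a, y a = (ρ a).elim 0 y := by
      intro y
      rw [mem_dirn]
      constructor
      · intro hy
        have k1 : A → y (yb e) = 0 := fun hA' => by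
          have := hy .b0 ((t_b0 e).2 hA')
          simp only [cc, LinearMap.neg_apply, ev_apply] at this
          linarith
        have k2 : B → y (yt e) = 0 := fun hB' => by
          have := hy .t1 ((t_t1 e).2 hB')
          simp only [cc, ev_apply] at this
          linarith
        have k3 : ∀ p, w p = .Z → y (yp e p) = y (yb e) := fun p hp => by
          have := hy (.lo p) ((t_lo e).2 ((stt_Z e).1 hp))
          simp only [cc, LinearMap.sub_apply, ev_apply] at this
          linarith
        have k4 : ∀ p, w p = .O → y (yp e p) = y (yt e) := fun p hp => by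
          have := hy (.hi p) ((t_hi e).2 ((stt_O e h).1 hp))
          simp only [cc, LinearMap.sub_apply, ev_apply] at this
          linarith
        have k5 : ∀ p, w p = .C → y (yp e p) = y (yp e (pr p)) := fun p hp => by
          have := hy (.st p) ((t_st e).2 ((stt_C e).1 hp).2.2)
          simp only [cc, LinearMap.sub_apply, ev_apply] at this
          exact (smla e y p).1 (by linarith)
        have kb : y (yb e) = (if A then none else some (yb e) : Option Y).elim 0 y := by
          by_cases hA' : A
          · rw [if_pos hA', k1 hA']; rfl
          · rw [if_neg hA']; rfl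
        have kt : y (yt e) = (if B then none else some (yt e) : Option Y).elim 0 y := by
          by_cases hB' : B
          · rw [if_pos hB', k2 hB']; rfl
          · rw [if_neg hB']; rfl
        intro a
        apply e_cases e (fun a => y a = (ρ a).elim 0 y)
        · rw [ρb]; exact kb
        · rw [ρt]; exact kt
        · intro p
          have k6 := hR5 (fun p => y (yp e p)) k5 p
          rw [ρp, k6]
          rcases hwp : w (R p) with _ | _ | _ | _
          · rw [k3 _ hwp]; exact kb
          · rw [k4 _ hwp]; exact kt
          · rfl
          · rfl
      · intro hy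
        have k1 : y (yb e) = (if A then none else some (yb e) : Option Y).elim 0 y := by
          rw [← ρb]; exact hy _
        have k2 : y (yt e) = (if B then none else some (yt e) : Option Y).elim 0 y := by
          rw [← ρt]; exact hy _
        have k3 : ∀ p, w p = .Z → y (yp e p) = y (yb e) := fun p hp => by
          have h1 := hy (yp e p)
          rw [ρp, hR2 p (by rw [hp]; simp), hp] at h1
          rw [k1]; exact h1
        have k4 : ∀ p, w p = .O → y (yp e p) = y (yt e) := fun p hp => by
          have h1 := hy (yp e p)
          rw [ρp, hR2 p (by rw [hp]; simp), hp] at h1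
          rw [k2]; exact h1
        have k5 : ∀ p, w p = .C → y (yp e p) = y (yp e (pr p)) := fun p hp => by
          have h1 := hy (yp e p)
          have h2 := hy (yp e (pr p))
          rw [ρp, hR1 p hp] at h1
          rw [ρp] at h2
          rw [h1]; exact h2.symm
        intro i hi
        cases i with
        | b0 =>
          have hA' : A := (t_b0 e).1 hi
          rw [if_pos hA'] at k1
          simp only [cc, LinearMap.neg_apply, ev_apply]
          rw [k1]; simp
        | t1 =>
          have hB' : B := (t_t1 e).1 hi
          rw [if_pos hB'] at k2
          simp only [cc, ev_apply]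
          rw [k2]; simp
        | bt => exact absurd ((t_bt e).1 hi) h
        | lo p =>
          simp only [cc, LinearMap.sub_apply, ev_apply, k3 p ((stt_Z e).2 ((t_lo e).1 hi)), sub_self]
        | hi p =>
          simp only [cc, LinearMap.sub_apply, ev_apply, k4 p ((stt_O e h).2 ((t_hi e).1 hi)),
            sub_self]
        | st p =>
          simp only [cc, LinearMap.sub_apply, ev_apply, sub_eq_zero]
          rw [smla e y p]
          have h' := (t_st e).1 hi
          by_cases h1 : x (yp e p) = x (yb e)
          · rw [k3 _ ((stt_Z e).2 h1), k3 _ ((stt_Z e).2 (h' ▸ h1))]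
          · by_cases h2 : x (yp e p) = x (yt e)
            · rw [k4 _ ((stt_O e h).2 h2), k4 _ ((stt_O e h).2 (h' ▸ h2))]
            · exact k5 _ ((stt_C e).2 ⟨h1, h2, h'⟩)
    rw [finrank_root ρ hρ _ hD, ncard_e e]
    have hbt : yb e ≠ yt e := fun h' => by have := e.injective h'; cases this
    have hbp : ∀ p, yb e ≠ yp e p := fun p h' => by have := e.injective h'; cases this
    have htp : ∀ p, yt e ≠ yp e p := fun p h' => by have := e.injective h'; cases this
    have hpp : ∀ p q, yp e p = yp e q → p = q := fun p q h' => by
      have := e.injective h'; cases this; rfl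
    have c1 : (if ρ (yb e) = some (yb e) then 1 else 0) = (if decide A = true then 0 else 1) := by
      rw [ρb]
      by_cases hA' : A <;> simp [hA']
    have c2 : (if ρ (yt e) = some (yt e) then 1 else 0) = (if decide B = true then 0 else 1) := by
      rw [ρt]
      by_cases hB' : B <;> simp [hB']
    have c3 : (Finset.univ.filter (fun p => ρ (yp e p) = some (yp e p))).card = dimw w := by
      have h1 : ∀ p, ρ (yp e p) = some (yp e p) ↔ (w p = .N ∨ (R p = p ∧ w p = .C)) := by
        intro p
        rw [ρp]
        constructor
        · intro hp
          rcases hwp : w (R p) with _ | _ | _ | _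
          · rw [hwp] at hp
            by_cases hA' : A
            · simp only [if_pos hA'] at hp; cases hp
            · simp only [if_neg hA', Option.some.injEq] at hp
              exact absurd hp (hbp p)
          · rw [hwp] at hp
            by_cases hB' : B
            · simp only [if_pos hB'] at hp; cases hp
            · simp only [if_neg hB', Option.some.injEq] at hp
              exact absurd hp (htp p)
          · rw [hwp] at hp
            simp only [Option.some.injEq] at hp
            have := hpp _ _ hp
            left
            rw [← this]; exact hwp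
          · rw [hwp] at hp
            simp only [Option.some.injEq] at hp
            have := hpp _ _ hp
            right
            refine ⟨this, ?_⟩
            rw [← this]; exact hwp
        · rintro (hp | ⟨hp1, hp2⟩)
          · rw [hR2 p (by rw [hp]; simp), hp]
          · rw [hp1, hp2]
      rw [Finset.filter_congr (fun p _ => h1 p), Finset.filter_or, Finset.card_union_of_disjoint]
      · unfold dimw nN
        congr 1
        rw [Finset.filter_congr (fun p _ => hR4 p)]
        by_cases hC : ∀ q, w q = .C
        · have h3 : (Finset.univ.filter (fun p => (∀ q, w q = .C) ∧ p = p₀)) = {p₀} := by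
            ext p
            rw [Finset.mem_filter, Finset.mem_singleton]
            exact ⟨fun h' => h'.2.2, fun h' => ⟨Finset.mem_univ _, hC, h'⟩⟩
          rw [if_pos hC, h3, Finset.card_singleton]
        · rw [if_neg hC, Finset.card_eq_zero, Finset.filter_eq_empty_iff]
          rintro p _ ⟨h', _⟩
          exact hC h'
      · rw [Finset.disjoint_filter]
        rintro p _ h1 ⟨_, h2⟩
        rw [h1] at h2
        cases h2
    rw [c1, c2, c3]
    simp only [dimc]
    ring

end

end Pool.Agent.R916.OP
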