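import Pool.Agent.R916.OP.Trace

/-!
The realizable words on the cyclic zigzag.
-/

namespace Pool.Agent.R916.OP

open Finset

/-- the words coming from points of the order polytope -/
def Good {n : ℕ} (w : ZMod n × Bool → St) : Prop :=
  Val w ∧ ((∃ p, w p = .Z ∨ w p = .O) ∨ (∀ p, w p = .C) ∨
    ((∃ i, w (i, false) = .N) ∧ ∃ i, w (i, true) = .N))

open Classical in
/-- the number of blocks not containing the bottom or the top -/
noncomputable def dimw {X : Type*} [Fintype X] (w : X → St) : ℕ :=
  nN w + if ∀ p, w p = .C then 1 else 0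

/-- all states are `C`, except for some states `N` on one side -/
def EE {n : ℕ} (b : Bool) (w : ZMod n × Bool → St) : Prop :=
  ∀ p, w p = .C ∨ (w p = .N ∧ p.2 = b)

theorem wt_pow {X : Type*} [Fintype X] (t : ℝ) (w : X → St) : t ^ nN w = ∏ p, wt t (w p) := by
  unfold nN wt
  rw [Finset.prod_ite, Finset.prod_const, Finset.prod_const_one, mul_one]

open Classical in
theorem sum_EE (n : ℕ) [NeZero n] (t : ℝ) (b : Bool) :
    ∑ w : ZMod n × Bool → St, (if EE b w then t ^ nN w else 0) = (1 + t) ^ n := by
  have h1 : ∀ w : ZMod n × Bool → St, (if EE b w then t ^ nN w else 0) =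
      ∏ p, (if w p = .C ∨ (w p = .N ∧ p.2 = b) then wt t (w p) else 0) := by
    intro w
    by_cases h : EE b w
    · rw [if_pos h, wt_pow]
      apply Finset.prod_congr rfl
      intro p _
      rw [if_pos (h p)]
    · rw [if_neg h]
      unfold EE at h
      push Not at h
      obtain ⟨p, hp1, hp2⟩ := h
      symm
      apply Finset.prod_eq_zero (Finset.mem_univ p)
      rw [if_neg]
      rintro (h | h)
      · exact hp1 h
      · exact hp2 h.1 h.2
  rw [Finset.sum_congr rfl fun w _ => h1 w]
  have h6 := Finset.prod_univ_sum (fun _ : ZMod n × Bool => (Finset.univ : Finset St))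
    (fun p c => if c = .C ∨ (c = .N ∧ p.2 = b) then wt t c else 0)
  rw [Fintype.piFinset_univ] at h6
  rw [← h6, Fintype.prod_prod_type]
  have h7 : ∀ i : ZMod n, ∏ y : Bool, ∑ c : St,
      (if c = .C ∨ (c = .N ∧ y = b) then wt t c else 0) = 1 + t := by
    intro i
    rw [Fintype.prod_bool, sum_St, sum_St]
    cases b <;> simp [wt] <;> ring
  rw [Finset.prod_congr rfl fun i _ => h7 i, Finset.prod_const, Finset.card_univ, ZMod.card]

theorem EE_val {n : ℕ} {b : Bool} {w : ZMod n × Bool → St} (h : EE b w) : Val w := by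
  intro i
  have h1 := h (i, false)
  have h2 := h (i, true)
  have h3 := h (i + 1, false)
  constructor
  · rcases h1 with h1 | ⟨h1, -⟩ <;> rcases h2 with h2 | ⟨h2, -⟩ <;> rw [h1, h2] <;> simp [up]
  · rcases h3 with h3 | ⟨h3, -⟩ <;> rcases h2 with h2 | ⟨h2, -⟩ <;> rw [h3, h2] <;> simp [dn]

theorem EE_both {n : ℕ} {w : ZMod n × Bool → St} :
    (EE true w ∧ EE false w) ↔ ∀ p, w p = .C := by
  constructor
  · rintro ⟨h1, h2⟩ p
    rcases h1 p with h | ⟨_, h⟩
    · exact h
    · rcases h2 p with h' | ⟨_, h'⟩
      · exact h'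
      · rw [h] at h'; exact absurd h' (by simp)
  · intro h
    exact ⟨fun p => Or.inl (h p), fun p => Or.inl (h p)⟩

theorem good_iff {n : ℕ} {w : ZMod n × Bool → St} :
    Good w ↔ (∀ p, w p = .C) ∨ (Val w ∧ ¬ EE true w ∧ ¬ EE false w) := by
  constructor
  · rintro ⟨hv, h⟩
    by_cases hC : ∀ p, w p = .C
    · exact Or.inl hC
    · refine Or.inr ⟨hv, ?_, ?_⟩
      · intro hE
        rcases h with ⟨p, hp⟩ | h | ⟨⟨i, hi⟩, _⟩
        · rcases hE p with h' | ⟨h', _⟩ <;> rw [h'] at hp <;> simp at hp
        · exact hC h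
        · rcases hE (i, false) with h' | ⟨_, h'⟩
          · rw [h'] at hi; simp at hi
          · simp at h'
      · intro hE
        rcases h with ⟨p, hp⟩ | h | ⟨_, ⟨i, hi⟩⟩
        · rcases hE p with h' | ⟨h', _⟩ <;> rw [h'] at hp <;> simp at hp
        · exact hC h
        · rcases hE (i, true) with h' | ⟨_, h'⟩
          · rw [h'] at hi; simp at hi
          · simp at h'
  · rintro (h | ⟨hv, h1, h2⟩)
    · exact ⟨EE_val (b := true) (fun p => Or.inl (h p)), Or.inr (Or.inl h)⟩
    · refine ⟨hv, ?_⟩
      by_cases hz : ∃ p, w p = .Z ∨ w p = .O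
      · exact Or.inl hz
      · right; right
        push Not at hz
        unfold EE at h1 h2
        push Not at h1 h2
        obtain ⟨⟨i, b⟩, hp1, hp2⟩ := h1
        obtain ⟨⟨j, c⟩, hq1, hq2⟩ := h2
        have e1 : w (i, b) = .N := by
          have := hz (i, b)
          rcases hh : w (i, b) <;> simp_all
        have e2 : w (j, c) = .N := by
          have := hz (j, c)
          rcases hh : w (j, c) <;> simp_all
        have e3 := hp2 e1
        have e4 := hq2 e2
        simp only [ne_eq, Bool.not_eq_true, Bool.not_eq_false] at e3 e4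
        subst e3 e4
        exact ⟨⟨i, e1⟩, ⟨j, e2⟩⟩

theorem nN_allC {X : Type*} [Fintype X] {w : X → St} (h : ∀ p, w p = .C) : nN w = 0 := by
  unfold nN
  rw [Finset.card_eq_zero, Finset.filter_eq_empty_iff]
  intro p _
  rw [h p]
  simp

open Classical in
theorem sum_good (n : ℕ) [NeZero n] (t : ℝ) :
    ∑ w : ZMod n × Bool → St, (if Good w then t ^ dimw w else 0) =
      W (1 + t) n - 2 * (1 + t) ^ n + 2 + t := by
  have h1 : ∀ w : ZMod n × Bool → St, (if Good w then t ^ dimw w else 0) =
      (if Val w then t ^ nN w else 0) - (if EE true w then t ^ nN w else 0) -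
        (if EE false w then t ^ nN w else 0) + (if w = (fun _ => .C) then 1 + t else 0) := by
    intro w
    by_cases hC : ∀ p, w p = .C
    · have hw : w = fun _ => .C := funext hC
      rw [if_pos (good_iff.2 (Or.inl hC)), if_pos (EE_val (EE_both.2 hC).1), if_pos (EE_both.2 hC).1,
        if_pos (EE_both.2 hC).2, if_pos hw, dimw, if_pos hC, nN_allC hC]
      ring
    · have hw : w ≠ fun _ => .C := fun h => hC (fun p => congrFun h p)
      rw [if_neg hw, dimw, if_neg hC, add_zero, add_zero]
      by_cases hv : Val w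
      · rw [if_pos hv]
        by_cases ht : EE true w
        · have hf : ¬ EE false w := fun hf => hC (EE_both.1 ⟨ht, hf⟩)
          rw [if_pos ht, if_neg hf, if_neg]
          · ring
          · rw [good_iff]
            rintro (h | h)
            · exact hC h
            · exact h.2.1 ht
        · by_cases hf : EE false w
          · rw [if_neg ht, if_pos hf, if_neg]
            · ring
            · rw [good_iff]
              rintro (h | h)
              · exact hC h
              · exact h.2.2 hf
          · rw [if_neg ht, if_neg hf, if_pos (good_iff.2 (Or.inr ⟨hv, ht, hf⟩))]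
            ring
      · rw [if_neg hv, if_neg (fun h => hv (EE_val h)), if_neg (fun h => hv (EE_val h)),
          if_neg (fun h => hv h.1)]
        ring
  rw [Finset.sum_congr rfl fun w _ => h1 w, Finset.sum_add_distrib, Finset.sum_sub_distrib,
    Finset.sum_sub_distrib, sum_val', sum_EE, sum_EE, Finset.sum_ite_eq' Finset.univ,
    if_pos (Finset.mem_univ _)]
  ring

end Pool.Agent.R916.OP
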