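import Mathlib

/-!
Log-concave polynomials, and the product formula used for the order polytope of the face lattice of
a polygon.
-/

namespace Pool.Agent.R916.OP

open Polynomial Finset

/-- The coefficients of `p` are positive up to degree `d`, vanish afterwards, and form a
log-concave sequence. -/
structure PLC (p : ℝ[X]) (d : ℕ) : Prop where
  pos : ∀ i ≤ d, 0 < p.coeff i
  zero : ∀ i, d < i → p.coeff i = 0
  lc : ∀ i, p.coeff i * p.coeff (i + 2) ≤ p.coeff (i + 1) ^ 2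

theorem PLC.nonneg {p : ℝ[X]} {d : ℕ} (hp : PLC p d) (i : ℕ) : 0 ≤ p.coeff i := by
  rcases le_or_gt i d with h | h
  · exact (hp.pos i h).le
  · exact (hp.zero i h).ge

theorem PLC.one : PLC 1 0 := by
  refine ⟨fun i hi => ?_, fun i hi => ?_, fun i => ?_⟩
  · obtain rfl : i = 0 := by omega
    simp
  · rw [coeff_one, if_neg (by omega)]
  · rw [coeff_one, coeff_one, if_neg (by omega : i + 2 ≠ 0), mul_zero]
    positivity

theorem PLC.cross {p : ℝ[X]} {d : ℕ} (hp : PLC p d) (i : ℕ) :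
    p.coeff i * p.coeff (i + 3) ≤ p.coeff (i + 1) * p.coeff (i + 2) := by
  rcases le_or_gt (i + 3) d with h | h
  · have h1 := hp.pos (i + 1) (by omega)
    have h2 := hp.pos (i + 2) (by omega)
    have h3 := hp.lc i
    have h4 := hp.lc (i + 1)
    have h5 : (p.coeff i * p.coeff (i + 2)) * (p.coeff (i + 1) * p.coeff (i + 3)) ≤
        p.coeff (i + 1) ^ 2 * p.coeff (i + 2) ^ 2 :=
      mul_le_mul h3 h4 (mul_nonneg (hp.nonneg _) (hp.nonneg _)) (by positivity)
    have h6 : (p.coeff i * p.coeff (i + 3)) * (p.coeff (i + 1) * p.coeff (i + 2)) ≤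
        (p.coeff (i + 1) * p.coeff (i + 2)) * (p.coeff (i + 1) * p.coeff (i + 2)) := by nlinarith
    exact le_of_mul_le_mul_right h6 (mul_pos h1 h2)
  · rw [hp.zero (i + 3) h, mul_zero]
    exact mul_nonneg (hp.nonneg _) (hp.nonneg _)

theorem coeff_mul_X_add_zero (p : ℝ[X]) (c : ℝ) : (p * (X + C c)).coeff 0 = c * p.coeff 0 := by
  rw [mul_add, coeff_add, mul_comm p X, coeff_X_mul_zero, coeff_mul_C]
  ring

theorem coeff_mul_X_add_succ (p : ℝ[X]) (c : ℝ) (i : ℕ) :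
    (p * (X + C c)).coeff (i + 1) = p.coeff i + c * p.coeff (i + 1) := by
  rw [mul_add, coeff_add, coeff_mul_X, coeff_mul_C]
  ring

theorem PLC.mul_X_add {p : ℝ[X]} {d : ℕ} (hp : PLC p d) {c : ℝ} (hc : 0 < c) :
    PLC (p * (X + C c)) (d + 1) := by
  refine ⟨fun i hi => ?_, fun i hi => ?_, fun i => ?_⟩
  · rcases i with _ | i
    · rw [coeff_mul_X_add_zero]
      exact mul_pos hc (hp.pos 0 (by omega))
    · rw [coeff_mul_X_add_succ]
      have := hp.pos i (by omega)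
      have := mul_nonneg hc.le (hp.nonneg (i + 1))
      linarith
  · rcases i with _ | i
    · omega
    · rw [coeff_mul_X_add_succ, hp.zero i (by omega), hp.zero (i + 1) (by omega)]
      ring
  · rcases i with _ | i
    · rw [coeff_mul_X_add_zero, coeff_mul_X_add_succ, coeff_mul_X_add_succ]
      have h0 := hp.nonneg 0
      have h1 := hp.nonneg 1
      have h3 := hp.lc 0
      simp only [zero_add] at h3 ⊢
      have h4 : 0 ≤ c * (p.coeff 0 * p.coeff 1) := by positivity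
      have h5 : 0 ≤ c ^ 2 * (p.coeff 1 ^ 2 - p.coeff 0 * p.coeff 2) :=
        mul_nonneg (by positivity) (by linarith)
      nlinarith [sq_nonneg (p.coeff 0)]
    · rw [coeff_mul_X_add_succ, coeff_mul_X_add_succ, coeff_mul_X_add_succ]
      have h3 := hp.lc i
      have h3' := hp.lc (i + 1)
      have h6 := hp.cross i
      have h4 : 0 ≤ c * (p.coeff (i + 1) * p.coeff (i + 2) - p.coeff i * p.coeff (i + 3)) :=
        mul_nonneg hc.le (by linarith)
      have h5 : 0 ≤ c ^ 2 * (p.coeff (i + 2) ^ 2 - p.coeff (i + 1) * p.coeff (i + 3)) :=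
        mul_nonneg (by positivity) (by linarith)
      have e1 : i + 1 + 1 = i + 2 := rfl
      have e2 : i + 1 + 2 = i + 3 := rfl
      rw [e1]
      nlinarith

theorem PLC.mul_X_add_pow {p : ℝ[X]} {d : ℕ} (hp : PLC p d) {c : ℝ} (hc : 0 < c) (k : ℕ) :
    PLC (p * (X + C c) ^ k) (d + k) := by
  induction k with
  | zero => simpa using hp
  | succ k ih =>
    rw [pow_succ, ← mul_assoc, ← add_assoc]
    exact ih.mul_X_add hc

theorem PLC.mul_prod {ι : Type*} {p : ℝ[X]} {d : ℕ} (hp : PLC p d) (s : Finset ι) (c : ι → ℝ)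
    (hc : ∀ j ∈ s, 0 < c j) : PLC (p * ∏ j ∈ s, (X + C (c j))) (d + s.card) := by
  classical
  induction s using Finset.induction_on with
  | empty => simpa using hp
  | insert a s ha ih =>
    rw [prod_insert ha, card_insert_of_notMem ha, mul_comm (X + C (c a)), ← mul_assoc, ← add_assoc]
    exact (ih fun j hj => hc j (mem_insert_of_mem hj)).mul_X_add (hc a (mem_insert_self _ _))

theorem PLC.one_add_X_mul {p : ℝ[X]} {d : ℕ} (hp : PLC p d) (h : p.coeff 1 ≤ p.coeff 0 ^ 2) :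
    PLC (1 + X * p) (d + 1) := by
  have h0 : (1 + X * p).coeff 0 = 1 := by simp
  have h1 : ∀ i, (1 + X * p).coeff (i + 1) = p.coeff i := fun i => by
    rw [coeff_add, coeff_X_mul, coeff_one, if_neg (by omega), zero_add]
  refine ⟨fun i hi => ?_, fun i hi => ?_, fun i => ?_⟩
  · rcases i with _ | i
    · rw [h0]; exact one_pos
    · rw [h1]; exact hp.pos i (by omega)
  · rcases i with _ | i
    · omega
    · rw [h1]; exact hp.zero i (by omega)
  · rcases i with _ | i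
    · rw [h0, h1, h1, one_mul]
      exact h
    · rw [h1, h1, h1]
      exact hp.lc i

/-- A product of linear factors `X + c j` with `c j ≥ 1` has `coeff 1 ≤ (number) * coeff 0`. -/
theorem coeff_one_prod {ι : Type*} (s : Finset ι) (c : ι → ℝ) (hc : ∀ j ∈ s, 1 ≤ c j) :
    0 < (∏ j ∈ s, (X + C (c j)) : ℝ[X]).coeff 0 ∧
    (∏ j ∈ s, (X + C (c j)) : ℝ[X]).coeff 1 ≤ s.card * (∏ j ∈ s, (X + C (c j)) : ℝ[X]).coeff 0 := by
  classical
  induction s using Finset.induction_on with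
  | empty => simp [coeff_one]
  | insert a s ha ih =>
    obtain ⟨ih0, ih1⟩ := ih fun j hj => hc j (mem_insert_of_mem hj)
    have hca := hc a (mem_insert_self _ _)
    rw [prod_insert ha, card_insert_of_notMem ha, mul_comm (X + C (c a)),
      coeff_mul_X_add_zero]
    have := coeff_mul_X_add_succ (∏ j ∈ s, (X + C (c j))) (c a) 0
    rw [zero_add] at this
    rw [this]
    refine ⟨mul_pos (by linarith) ih0, ?_⟩
    push_cast
    nlinarith [mul_le_mul_of_nonneg_left ih1 (by linarith : 0 ≤ c a)]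

/-! ### The product formula -/

/-- `W 0 = 2`, `W 1 = s² + 2s`, `W (n+2) = (s² + 2s) W (n+1) - s² W n`. -/
noncomputable def W (s : ℝ) : ℕ → ℝ
  | 0 => 2
  | 1 => s ^ 2 + 2 * s
  | (n + 2) => (s ^ 2 + 2 * s) * W s (n + 1) - s ^ 2 * W s n

theorem W_eq {s z : ℝ} (hz : z ≠ 0) (h : z + z⁻¹ = s + 2) (n : ℕ) :
    W s n = s ^ n * (z ^ n + (z⁻¹) ^ n) := by
  have key : ∀ n, W s n = s ^ n * (z ^ n + (z⁻¹) ^ n) ∧
      W s (n + 1) = s ^ (n + 1) * (z ^ (n + 1) + (z⁻¹) ^ (n + 1)) := by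
    intro n
    induction n with
    | zero =>
      refine ⟨by simp [W]; norm_num, ?_⟩
      simp only [zero_add, pow_one, W, h]
      ring
    | succ n ih =>
      refine ⟨ih.2, ?_⟩
      rw [show n + 1 + 1 = n + 2 from rfl, W, ih.1, ih.2]
      have e : s ^ 2 + 2 * s = s * (z + z⁻¹) := by rw [h]; ring
      rw [e]
      have e2 : z * z⁻¹ = 1 := mul_inv_cancel₀ hz
      have : z ^ n * z * z⁻¹ = z ^ n := by rw [mul_assoc, e2, mul_one]
      have h2 : z⁻¹ ^ n * z⁻¹ * z = z⁻¹ ^ n := by rw [mul_assoc, mul_comm z⁻¹ z, e2, mul_one]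
      linear_combination (s ^ (n + 2)) * this + (s ^ (n + 2)) * h2
  exact (key n).1

theorem W_one (n : ℕ) (hn : 1 ≤ n) : 2 * (n : ℝ) ≤ W 1 n ∧ W 1 n + 2 ≤ W 1 (n + 1) := by
  induction n, hn using Nat.le_induction with
  | base => norm_num [W]
  | succ n hn ih =>
    have h1 : W 1 (n + 1 + 1) = 3 * W 1 (n + 1) - W 1 n := by
      rw [show n + 1 + 1 = n + 2 from rfl, W]; ring
    have h2 : (1 : ℝ) ≤ n := by exact_mod_cast hn
    refine ⟨?_, ?_⟩
    · push_cast
      linarith [ih.1, ih.2]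
    · rw [h1]
      linarith [ih.1, ih.2]

theorem pow_sub_one_sq {n : ℕ} (hn : 0 < n) (z : ℝ) :
    (z ^ n - 1) ^ 2 = ∏ ζ ∈ nthRootsFinset n (1 : ℂ), (z ^ 2 - 2 * z * ζ.re + 1) := by
  have h1 := X_pow_sub_one_eq_prod hn (Complex.isPrimitiveRoot_exp n hn.ne')
  have h2 := congrArg (fun p => Polynomial.eval (z : ℂ) p) h1
  simp only [eval_sub, eval_pow, eval_X, eval_one, eval_prod, eval_C] at h2
  have h3 : ((z ^ n - 1 : ℝ) : ℂ) = ∏ ζ ∈ nthRootsFinset n (1 : ℂ), ((z : ℂ) - ζ) := by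
    push_cast
    exact h2
  have h4 : Complex.normSq ((z ^ n - 1 : ℝ) : ℂ) =
      ∏ ζ ∈ nthRootsFinset n (1 : ℂ), Complex.normSq ((z : ℂ) - ζ) := by
    rw [h3, map_prod]
  rw [Complex.normSq_ofReal] at h4
  rw [sq, h4]
  apply Finset.prod_congr rfl
  intro ζ hζ
  rw [mem_nthRootsFinset hn] at hζ
  have h5 : Complex.normSq ζ = 1 := by
    have h6 : ‖ζ‖ = 1 := Complex.norm_eq_one_of_pow_eq_one hζ hn.ne'
    rw [Complex.normSq_eq_norm_sq, h6, one_pow]
  rw [Complex.normSq_apply] at h5 ⊢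
  simp only [Complex.sub_re, Complex.ofReal_re, Complex.sub_im, Complex.ofReal_im]
  linear_combination h5

theorem W_sub {n : ℕ} (hn : 0 < n) {s : ℝ} (hs : 0 < s) :
    W s n - 2 * s ^ n = s ^ n * ∏ ζ ∈ nthRootsFinset n (1 : ℂ), (s + (2 - 2 * ζ.re)) := by
  obtain ⟨z, hz, h⟩ : ∃ z : ℝ, 0 < z ∧ z + z⁻¹ = s + 2 := by
    refine ⟨(s + 2 + √(s ^ 2 + 4 * s)) / 2, by positivity, ?_⟩
    have h1 : √(s ^ 2 + 4 * s) ^ 2 = s ^ 2 + 4 * s := Real.sq_sqrt (by positivity)
    have h2 : 0 < (s + 2 + √(s ^ 2 + 4 * s)) / 2 := by positivity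
    have h3 : ((s + 2 + √(s ^ 2 + 4 * s)) / 2)⁻¹ = (s + 2 - √(s ^ 2 + 4 * s)) / 2 := by
      rw [inv_eq_of_mul_eq_one_right]
      nlinarith
    rw [h3]
    ring
  rw [W_eq hz.ne' h]
  have h1 := pow_sub_one_sq hn z
  have h2 : ∏ ζ ∈ nthRootsFinset n (1 : ℂ), (s + (2 - 2 * ζ.re)) =
      (z⁻¹) ^ n * ∏ ζ ∈ nthRootsFinset n (1 : ℂ), (z ^ 2 - 2 * z * ζ.re + 1) := by
    have hcard : (nthRootsFinset n (1 : ℂ)).card = n :=
      (Complex.isPrimitiveRoot_exp n hn.ne').card_nthRootsFinset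
    have e : z⁻¹ ^ n = ∏ _ζ ∈ nthRootsFinset n (1 : ℂ), z⁻¹ := by rw [Finset.prod_const, hcard]
    rw [e, ← Finset.prod_mul_distrib]
    apply Finset.prod_congr rfl
    intro ζ _
    have : z * z⁻¹ = 1 := mul_inv_cancel₀ hz.ne'
    linear_combination (-1 : ℝ) * h + (- z + 2 * ζ.re) * this
  rw [h2, ← h1]
  have : z ^ n * z⁻¹ ^ n = 1 := by rw [← mul_pow, mul_inv_cancel₀ hz.ne', one_pow]
  linear_combination (s ^ n * (2 - z ^ n)) * this

end Pool.Agent.R916.OP
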