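import Pool.Agent.R916.OP.Range

/-!
The face numbers of the order polytope of the face lattice of a polygon.
-/

namespace Pool.Agent.R916.OP

open Finset Polynomial
open Pool.Agent.W304.HL

section

variable {n : ℕ} [NeZero n] {Y : Type*} [Fintype Y] (e : Bool ⊕ (ZMod n × Bool) ≃ Y)

theorem ncard_faces_code (k : ℕ) :
    (facesOfDim (poly (cc e) (dd (n := n))) k).ncard =
      Set.ncard {c : Code n | GoodCode c ∧ dimc c = k} := by
  rw [ncard_faces]
  have h1 : ftypes (cc e) (dd (n := n)) k =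
      tight (cc e) (dd (n := n)) '' {x | InK e x ∧ dimc (code e x) = k} := by
    ext T
    constructor
    · rintro ⟨⟨x, hx, rfl⟩, hd⟩
      have hx' := (mem_poly_iff e).1 hx
      exact ⟨x, ⟨hx', by rw [← finrank_dirn e hx']; exact hd⟩, rfl⟩
    · rintro ⟨x, ⟨hx, hd⟩, rfl⟩
      exact ⟨⟨x, (mem_poly_iff e).2 hx, rfl⟩, by rw [finrank_dirn e hx]; exact hd⟩
  rw [h1, ncard_image_code e _ (fun x hx => hx.1)]
  congr 1
  ext c
  constructor
  · rintro ⟨x, ⟨hx, hd⟩, rfl⟩
    exact ⟨goodCode_code e hx, hd⟩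
  · rintro ⟨hc, hd⟩
    obtain ⟨x, hx, rfl⟩ := exists_code e hc
    exact ⟨x, ⟨hx, hd⟩, rfl⟩

end

section

variable (n : ℕ) [NeZero n]

open Classical in
/-- generating polynomial of the codes -/
noncomputable def PP : ℝ[X] := ∑ c : Code n, if GoodCode c then X ^ dimc c else 0

theorem PP_coeff (k : ℕ) :
    (PP n).coeff k = (Set.ncard {c : Code n | GoodCode c ∧ dimc c = k} : ℝ) := by
  classical
  have h1 : Set.ncard {c : Code n | GoodCode c ∧ dimc c = k} =
      (Finset.univ.filter (fun c : Code n => GoodCode c ∧ dimc c = k)).card := by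
    rw [← Set.ncard_coe_finset]
    congr 1
    ext c
    simp
  rw [h1, Finset.card_filter, PP, Polynomial.finsetSum_coeff]
  push_cast
  apply Finset.sum_congr rfl
  intro c _
  by_cases h : GoodCode c
  · rw [if_pos h, Polynomial.coeff_X_pow]
    by_cases h2 : dimc c = k
    · rw [if_pos h2.symm, if_pos ⟨h, h2⟩]
    · rw [if_neg (fun h' => h2 h'.symm), if_neg (fun h' => h2 h'.2)]
  · rw [if_neg h, if_neg (fun h' => h h'.1)]
    simp

theorem PP_eval (t : ℝ) : (PP n).eval t =
    (t + 2) + (1 + t) ^ 2 * (W (1 + t) n - 2 * (1 + t) ^ n + 2 + t) := by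
  classical
  have h0 : (PP n).eval t = ∑ c : Code n, if GoodCode c then t ^ dimc c else 0 := by
    rw [PP, Polynomial.eval_finsetSum]
    apply Finset.sum_congr rfl
    intro c _
    by_cases h : GoodCode c
    · rw [if_pos h, if_pos h]; simp
    · rw [if_neg h, if_neg h]; simp
  have h1 : ∀ A B : Bool, ∑ o : Option (ZMod n × Bool → St),
      (if GoodCode ((A, B, o) : Code n) then t ^ dimc ((A, B, o) : Code n) else 0) =
      (if ¬ (A = true ∧ B = true) then t ^ (if A = true ∨ B = true then 0 else 1) else 0) +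
        t ^ ((if A = true then 0 else 1) + (if B = true then 0 else 1)) *
          (W (1 + t) n - 2 * (1 + t) ^ n + 2 + t) := by
    intro A B
    rw [Fintype.sum_option, ← sum_good, Finset.mul_sum]
    congr 1
    · by_cases hAB : A = true ∧ B = true
      · rw [if_neg (not_not.2 hAB), if_neg (show ¬ GoodCode ((A, B, none) : Code n) from
          fun h => h hAB)]
      · rw [if_pos hAB, if_pos (show GoodCode ((A, B, none) : Code n) from hAB)]
        rfl
    apply Finset.sum_congr rfl
    intro w _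
    show (if Good w then t ^ ((if A = true then 0 else 1) + (if B = true then 0 else 1) + dimw w)
      else 0) = _
    by_cases hw : Good w
    · rw [if_pos hw, if_pos hw, pow_add]
    · rw [if_neg hw, if_neg hw, mul_zero]
  rw [h0, Fintype.sum_prod_type]
  simp only [Fintype.sum_prod_type, Fintype.sum_bool]
  rw [h1, h1, h1, h1]
  simp
  ring

/-- the product of linear factors -/
noncomputable def GG : ℝ[X] := 1 * (X + C 1) ^ (n - 1) *
  ∏ ζ ∈ (nthRootsFinset n (1 : ℂ)).erase 1, (X + C (1 + (2 - 2 * ζ.re)))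

theorem one_mem : (1 : ℂ) ∈ nthRootsFinset n (1 : ℂ) := by
  rw [mem_nthRootsFinset (Nat.pos_of_ne_zero (NeZero.ne n)), one_pow]

theorem re_le {ζ : ℂ} (h : ζ ∈ nthRootsFinset n (1 : ℂ)) : ζ.re ≤ 1 := by
  rw [mem_nthRootsFinset (Nat.pos_of_ne_zero (NeZero.ne n))] at h
  have h6 : ‖ζ‖ = 1 := Complex.norm_eq_one_of_pow_eq_one h (NeZero.ne n)
  exact h6 ▸ Complex.re_le_norm ζ

theorem W_GG {t : ℝ} (ht : -1 < t) :
    W (1 + t) n - 2 * (1 + t) ^ n = (1 + t) ^ 2 * (GG n).eval t := by
  rw [W_sub (Nat.pos_of_ne_zero (NeZero.ne n)) (by linarith),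
    ← Finset.mul_prod_erase _ _ (one_mem n), GG, Polynomial.eval_mul, Polynomial.eval_mul,
    Polynomial.eval_prod]
  simp only [eval_add, eval_X, eval_C, eval_pow, eval_one, Complex.one_re]
  have h1 : ∀ ζ : ℂ, t + (1 + (2 - 2 * ζ.re)) = 1 + t + (2 - 2 * ζ.re) := fun ζ => by ring
  rw [Finset.prod_congr rfl fun ζ _ => h1 ζ]
  have h2 : (1 + t) ^ n = (1 + t) * (1 + t) ^ (n - 1) := by
    rw [← pow_succ']
    congr 1
    have := NeZero.ne n
    omega
  rw [h2]
  ring

/-- `f(t) = (1+t)^4 (1 + t G(t))` -/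
theorem FF_eq : 1 + X * PP n = (1 + X * GG n) * (X + C 1) ^ 4 := by
  apply Polynomial.eq_of_infinite_eval_eq
  apply (Set.Ioi_infinite (-1 : ℝ)).mono
  intro t ht
  have ht' : -1 < t := ht
  show Polynomial.eval t _ = Polynomial.eval t _
  simp only [eval_add, eval_mul, eval_X, eval_one, eval_pow, eval_C]
  rw [PP_eval, W_GG n ht']
  ring

theorem card_erase : ((nthRootsFinset n (1 : ℂ)).erase 1).card = n - 1 := by
  rw [Finset.card_erase_of_mem (one_mem n),
    (Complex.isPrimitiveRoot_exp n (NeZero.ne n)).card_nthRootsFinset]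

theorem GG_PLC : PLC (GG n) (0 + (n - 1) + (n - 1)) := by
  have h1 : PLC (1 * (X + C 1) ^ (n - 1) : ℝ[X]) (0 + (n - 1)) := PLC.one.mul_X_add_pow one_pos _
  have h2 := h1.mul_prod ((nthRootsFinset n (1 : ℂ)).erase 1) (fun ζ => 1 + (2 - 2 * ζ.re))
    (fun ζ hζ => by
      have := re_le n (Finset.mem_of_mem_erase hζ)
      linarith)
  rw [card_erase] at h2
  exact h2

/-- `0 < coeff 0` and `coeff 1 ≤ k * coeff 0` -/
def R1 (p : ℝ[X]) (k : ℕ) : Prop := 0 < p.coeff 0 ∧ p.coeff 1 ≤ k * p.coeff 0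

theorem R1.mul {p : ℝ[X]} {k : ℕ} (h : R1 p k) {c : ℝ} (hc : 1 ≤ c) : R1 (p * (X + C c)) (k + 1) := by
  have := coeff_mul_X_add_succ p c 0
  rw [zero_add] at this
  unfold R1
  rw [coeff_mul_X_add_zero, this]
  obtain ⟨h0, h1⟩ := h
  refine ⟨mul_pos (by linarith) h0, ?_⟩
  push_cast
  nlinarith [mul_le_mul_of_nonneg_left h1 (by linarith : 0 ≤ c)]

theorem R1.pow {p : ℝ[X]} {k : ℕ} (h : R1 p k) (m : ℕ) : R1 (p * (X + C 1) ^ m) (k + m) := by
  induction m with
  | zero => simpa using h
  | succ m ih =>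
    rw [pow_succ, ← mul_assoc, ← add_assoc]
    exact ih.mul le_rfl

theorem R1.prod {p : ℝ[X]} {k : ℕ} (h : R1 p k) {ι : Type*} (s : Finset ι) (c : ι → ℝ)
    (hc : ∀ j ∈ s, 1 ≤ c j) : R1 (p * ∏ j ∈ s, (X + C (c j))) (k + s.card) := by
  classical
  induction s using Finset.induction_on with
  | empty => simpa using h
  | insert a s ha ih =>
    rw [prod_insert ha, card_insert_of_notMem ha, mul_comm (X + C (c a)), ← mul_assoc, ← add_assoc]
    exact (ih fun j hj => hc j (mem_insert_of_mem hj)).mul (hc a (mem_insert_self _ _))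

theorem GG_R1 : R1 (GG n) (0 + (n - 1) + (n - 1)) := by
  have h0 : R1 (1 : ℝ[X]) 0 := by
    unfold R1
    simp [coeff_one]
  have h2 := (h0.pow (n - 1)).prod ((nthRootsFinset n (1 : ℂ)).erase 1)
    (fun ζ => 1 + (2 - 2 * ζ.re)) (fun ζ hζ => by
      have := re_le n (Finset.mem_of_mem_erase hζ)
      linarith)
  rw [card_erase] at h2
  exact h2

theorem GG_zero : (GG n).coeff 0 = W 1 n - 2 := by
  have h := W_GG n (t := 0) (by norm_num)
  rw [add_zero, one_pow, one_pow, one_mul, ← Polynomial.coeff_zero_eq_eval_zero] at h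
  linarith

theorem GG_coeff_one : (GG n).coeff 1 ≤ (GG n).coeff 0 ^ 2 := by
  obtain ⟨h0, h1⟩ := GG_R1 n
  have h2 : ((0 + (n - 1) + (n - 1) : ℕ) : ℝ) ≤ (GG n).coeff 0 := by
    rw [GG_zero]
    have hn : 1 ≤ n := Nat.pos_of_ne_zero (NeZero.ne n)
    have := (W_one n hn).1
    push_cast [Nat.cast_sub hn]
    linarith
  have h3 := mul_le_mul_of_nonneg_right h2 h0.le
  rw [sq]
  linarith

theorem FF_PLC : PLC (1 + X * PP n) (2 * n + 3) := by
  rw [FF_eq]
  have h := ((GG_PLC n).one_add_X_mul (GG_coeff_one n)).mul_X_add_pow one_pos 4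
  have hn : 1 ≤ n := Nat.pos_of_ne_zero (NeZero.ne n)
  have e : 0 + (n - 1) + (n - 1) + 1 + 4 = 2 * n + 3 := by omega
  rw [e] at h
  exact h

end

/-! ### The face lattice of the polygon -/

/-- `S` is the vertex set of a face of the `n`-gon with vertices `ZMod n` in cyclic order. -/
def IsFace (n : ℕ) (S : Set (ZMod n)) : Prop :=
  S = ∅ ∨ (∃ i, S = {i}) ∨ (∃ i, S = {i, i + 1}) ∨ S = Set.univ

/-- the face lattice -/
abbrev LL (n : ℕ) := {S : Set (ZMod n) // IsFace n S}

/-- the order polytope -/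
def orderPolytope (Q : Type*) [LE Q] : Set (Q → ℝ) :=
  {x | (∀ a, 0 ≤ x a ∧ x a ≤ 1) ∧ ∀ a b, a ≤ b → x a ≤ x b}

/-- enumeration of the faces -/
def emb (n : ℕ) : Bool ⊕ (ZMod n × Bool) → LL n
  | .inl false => ⟨∅, Or.inl rfl⟩
  | .inl true => ⟨Set.univ, Or.inr (Or.inr (Or.inr rfl))⟩
  | .inr (i, false) => ⟨{i}, Or.inr (Or.inl ⟨i, rfl⟩)⟩
  | .inr (i, true) => ⟨{i, i + 1}, Or.inr (Or.inr (Or.inl ⟨i, rfl⟩))⟩

section

variable {n : ℕ} (hn : 3 ≤ n)

include hn

theorem one_ne : (1 : ZMod n) ≠ 0 := by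
  intro h
  have h2 : ((1 : ℕ) : ZMod n) = 0 := by exact_mod_cast h
  rw [ZMod.natCast_eq_zero_iff] at h2
  have := Nat.le_of_dvd (by norm_num) h2
  omega

theorem two_ne : (2 : ZMod n) ≠ 0 := by
  intro h
  have h2 : ((2 : ℕ) : ZMod n) = 0 := by exact_mod_cast h
  rw [ZMod.natCast_eq_zero_iff] at h2
  have := Nat.le_of_dvd (by norm_num) h2
  omega

theorem ne_add_one (i : ZMod n) : i ≠ i + 1 := by
  intro h
  exact one_ne hn (by linear_combination -h)

theorem ne_add_two (i : ZMod n) : i ≠ i + 2 := by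
  intro h
  exact two_ne hn (by linear_combination -h)

theorem pair_subset {i j : ZMod n} (h : ({i, i + 1} : Set (ZMod n)) ⊆ {j, j + 1}) : i = j := by
  have h1 : i ∈ ({j, j + 1} : Set (ZMod n)) := h (Set.mem_insert _ _)
  have h2 : i + 1 ∈ ({j, j + 1} : Set (ZMod n)) := h (Set.mem_insert_of_mem _ rfl)
  rcases h1 with h1 | h1
  · exact h1
  · have h1' : i = j + 1 := h1
    rcases h2 with h2 | h2
    · exfalso
      apply ne_add_two hn j
      rw [h1'] at h2
      linear_combination -h2
    · have h2' : i + 1 = j + 1 := h2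
      exact add_right_cancel h2'

theorem pair_ne_single {i j : ZMod n} (h : ({i, i + 1} : Set (ZMod n)) ⊆ {j}) : False := by
  have h1 : i ∈ ({j} : Set (ZMod n)) := h (Set.mem_insert _ _)
  have h2 : i + 1 ∈ ({j} : Set (ZMod n)) := h (Set.mem_insert_of_mem _ rfl)
  have h1' : i = j := h1
  have h2' : i + 1 = j := h2
  exact ne_add_one hn i (h1'.trans h2'.symm)

theorem univ_pair {i : ZMod n} (h : (Set.univ : Set (ZMod n)) ⊆ {i, i + 1}) : False := by
  have h1 : i + 2 ∈ ({i, i + 1} : Set (ZMod n)) := h (Set.mem_univ _)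
  rcases h1 with h1 | h1
  · exact ne_add_two hn i h1.symm
  · have h1' : i + 2 = i + 1 := h1
    exact ne_add_one hn (i + 1) (by linear_combination -h1')

theorem univ_single {i : ZMod n} (h : (Set.univ : Set (ZMod n)) ⊆ {i}) : False := by
  have h1 : i + 1 ∈ ({i} : Set (ZMod n)) := h (Set.mem_univ _)
  have h1' : i + 1 = i := h1
  exact ne_add_one hn i h1'.symm

theorem emb_bij : Function.Bijective (emb n) := by
  constructor
  · rintro (a | ⟨i, b⟩) (a' | ⟨i', b'⟩) h
    · cases a <;> cases a'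
      · rfl
      · exfalso
        have h' : (∅ : Set (ZMod n)) = Set.univ := congrArg Subtype.val h
        have : (0 : ZMod n) ∈ (∅ : Set (ZMod n)) := h' ▸ Set.mem_univ _
        exact this
      · exfalso
        have h' : (Set.univ : Set (ZMod n)) = ∅ := congrArg Subtype.val h
        have : (0 : ZMod n) ∈ (∅ : Set (ZMod n)) := h' ▸ Set.mem_univ _
        exact this
      · rfl
    · exfalso
      cases a <;> cases b'
      · have h' : (∅ : Set (ZMod n)) = {i'} := congrArg Subtype.val h
        have : i' ∈ (∅ : Set (ZMod n)) := h' ▸ rfl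
        exact this
      · have h' : (∅ : Set (ZMod n)) = {i', i' + 1} := congrArg Subtype.val h
        have : i' ∈ (∅ : Set (ZMod n)) := h' ▸ Set.mem_insert _ _
        exact this
      · have h' : (Set.univ : Set (ZMod n)) = {i'} := congrArg Subtype.val h
        exact univ_single hn h'.subset
      · have h' : (Set.univ : Set (ZMod n)) = {i', i' + 1} := congrArg Subtype.val h
        exact univ_pair hn h'.subset
    · exfalso
      cases a' <;> cases b
      · have h' : {i} = (∅ : Set (ZMod n)) := congrArg Subtype.val h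
        have : i ∈ (∅ : Set (ZMod n)) := h' ▸ rfl
        exact this
      · have h' : {i, i + 1} = (∅ : Set (ZMod n)) := congrArg Subtype.val h
        have : i ∈ (∅ : Set (ZMod n)) := h' ▸ Set.mem_insert _ _
        exact this
      · have h' : {i} = (Set.univ : Set (ZMod n)) := congrArg Subtype.val h
        exact univ_single hn h'.superset
      · have h' : {i, i + 1} = (Set.univ : Set (ZMod n)) := congrArg Subtype.val h
        exact univ_pair hn h'.superset
    · cases b <;> cases b'
      · have h' : ({i} : Set (ZMod n)) = {i'} := congrArg Subtype.val h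
        rw [Set.singleton_eq_singleton_iff.1 h']
      · exfalso
        have h' : ({i} : Set (ZMod n)) = {i', i' + 1} := congrArg Subtype.val h
        exact pair_ne_single hn h'.superset
      · exfalso
        have h' : ({i, i + 1} : Set (ZMod n)) = {i'} := congrArg Subtype.val h
        exact pair_ne_single hn h'.subset
      · have h' : ({i, i + 1} : Set (ZMod n)) = {i', i' + 1} := congrArg Subtype.val h
        rw [pair_subset hn h'.subset]
  · rintro ⟨S, rfl | ⟨i, rfl⟩ | ⟨i, rfl⟩ | rfl⟩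
    · exact ⟨.inl false, rfl⟩
    · exact ⟨.inr (i, false), rfl⟩
    · exact ⟨.inr (i, true), rfl⟩
    · exact ⟨.inl true, rfl⟩

/-- the enumeration of the faces as an equivalence -/
noncomputable def ee : Bool ⊕ (ZMod n × Bool) ≃ LL n := Equiv.ofBijective (emb n) (emb_bij hn)

theorem orderPolytope_iff (x : LL n → ℝ) : x ∈ orderPolytope (LL n) ↔ InK (ee hn) x := by
  have hb : ∀ a : LL n, yb (ee hn) ≤ a := fun a => Set.empty_subset a.1
  have ht : ∀ a : LL n, a ≤ yt (ee hn) := fun a => Set.subset_univ a.1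
  have hst : ∀ p, yp (ee hn) (sm p) ≤ yp (ee hn) (la p) := by
    rintro ⟨i, b⟩
    cases b
    · show ({i} : Set (ZMod n)) ⊆ {i - 1, i - 1 + 1}
      rw [sub_add_cancel, Set.singleton_subset_iff]
      exact Set.mem_insert_of_mem _ rfl
    · show ({i} : Set (ZMod n)) ⊆ {i, i + 1}
      rw [Set.singleton_subset_iff]
      exact Set.mem_insert _ _
  constructor
  · rintro ⟨h1, h2⟩
    exact ⟨(h1 _).1, (h1 _).2, h2 _ _ (hb _), fun p => h2 _ _ (hb _), fun p => h2 _ _ (ht _),
      fun p => h2 _ _ (hst p)⟩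
  · intro h
    have hbx : ∀ a, x (yb (ee hn)) ≤ x a := fun a =>
      e_cases (ee hn) (fun a => x (yb (ee hn)) ≤ x a) le_rfl h.bt h.lo a
    have htx : ∀ a, x a ≤ x (yt (ee hn)) := fun a =>
      e_cases (ee hn) (fun a => x a ≤ x (yt (ee hn))) h.bt le_rfl h.hi a
    refine ⟨fun a => ⟨h.b0.trans (hbx a), (htx a).trans h.t1⟩, ?_⟩
    intro a b hab
    obtain ⟨s, rfl⟩ := (ee hn).surjective a
    obtain ⟨s', rfl⟩ := (ee hn).surjective b
    rcases s with c | ⟨i, c⟩
    · cases c
      · exact hbx _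
      · rcases s' with c' | ⟨i', c'⟩
        · cases c'
          · exfalso
            have h' : (Set.univ : Set (ZMod n)) ⊆ ∅ := hab
            exact h' (Set.mem_univ (0 : ZMod n))
          · exact le_rfl
        · exfalso
          cases c'
          · exact univ_single hn (show (Set.univ : Set (ZMod n)) ⊆ {i'} from hab)
          · exact univ_pair hn (show (Set.univ : Set (ZMod n)) ⊆ {i', i' + 1} from hab)
    · rcases s' with c' | ⟨i', c'⟩
      · cases c'
        · exfalso
          cases c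
          · have h' : ({i} : Set (ZMod n)) ⊆ ∅ := hab
            exact h' (rfl : i = i)
          · have h' : ({i, i + 1} : Set (ZMod n)) ⊆ ∅ := hab
            exact h' (Set.mem_insert _ _)
        · exact htx _
      · cases c <;> cases c'
        · have h' : ({i} : Set (ZMod n)) ⊆ {i'} := hab
          rw [Set.singleton_subset_iff, Set.mem_singleton_iff] at h'
          rw [h']
        · have h' : ({i} : Set (ZMod n)) ⊆ {i', i' + 1} := hab
          rw [Set.singleton_subset_iff] at h'
          rcases h' with h' | h'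
          · rw [h']
            exact h.st (i', true)
          · have h'' : i = i' + 1 := h'
            have := h.st (i, false)
            have e1 : i - 1 = i' := by rw [h'']; ring
            simp only [sm, la, e1] at this
            exact this
        · exfalso
          exact pair_ne_single hn (show ({i, i + 1} : Set (ZMod n)) ⊆ {i'} from hab)
        · have h' : ({i, i + 1} : Set (ZMod n)) ⊆ {i', i' + 1} := hab
          rw [pair_subset hn h']

end

/-- The `f`-vector, indexed so that `fSeq K (i+1)` is the number of `i`-dimensional faces and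
`fSeq K 0 = 1` stands for the empty face. -/
noncomputable def fSeq {V : Type*} [AddCommGroup V] [Module ℝ V] [TopologicalSpace V] (K : Set V) :
    ℕ → ℕ
  | 0 => 1
  | (i + 1) => Set.ncard {F : Set V | F.Nonempty ∧ IsExposed ℝ K F ∧
      Module.finrank ℝ (vectorSpan ℝ F) = i}

theorem fSeq_eq {n : ℕ} (hn : 3 ≤ n) [NeZero n] (k : ℕ) :
    (fSeq (orderPolytope (LL n)) k : ℝ) = (1 + X * PP n).coeff k := by
  classical
  have := Fintype.ofFinite (LL n)
  rcases k with _ | k
  · simp [fSeq]
  · rw [coeff_add, coeff_X_mul, coeff_one, if_neg (by omega), zero_add, PP_coeff]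
    congr 1
    have hK : orderPolytope (LL n) = poly (cc (ee hn)) (dd (n := n)) := by
      ext x
      rw [orderPolytope_iff hn, mem_poly_iff]
    rw [← ncard_faces_code (ee hn) k, ← hK]
    rfl

theorem main {n : ℕ} (hn : 3 ≤ n) :
    (∀ k ≤ 2 * n + 3, 0 < fSeq (orderPolytope (LL n)) k) ∧
    (∀ k, 2 * n + 3 < k → fSeq (orderPolytope (LL n)) k = 0) ∧
    ∀ k, fSeq (orderPolytope (LL n)) k * fSeq (orderPolytope (LL n)) (k + 2) ≤
      fSeq (orderPolytope (LL n)) (k + 1) ^ 2 := by
  have : NeZero n := ⟨by omega⟩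
  have h := FF_PLC n
  refine ⟨fun k hk => ?_, fun k hk => ?_, fun k => ?_⟩
  · have := h.pos k hk
    rw [← fSeq_eq hn] at this
    exact_mod_cast this
  · have := h.zero k hk
    rw [← fSeq_eq hn] at this
    exact_mod_cast this
  · have := h.lc k
    rw [← fSeq_eq hn, ← fSeq_eq hn, ← fSeq_eq hn] at this
    exact_mod_cast this

end Pool.Agent.R916.OP
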