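import Pool.Agent.R916.OP.Good
import Pool.Agent.W304.HL.Faces

/-!
The faces of the order polytope of the face lattice of a polygon and the words on the zigzag.
-/

namespace Pool.Agent.R916.OP

open Finset
open Pool.Agent.W304.HL

/-- the predecessor on the zigzag -/
def pr {n : ℕ} : ZMod n × Bool → ZMod n × Bool
  | (i, true) => (i, false)
  | (i, false) => (i - 1, true)

theorem pr_true {n : ℕ} (i : ZMod n) : pr (i, true) = (i, false) := rfl
theorem pr_false {n : ℕ} (i : ZMod n) : pr (i, false) = (i - 1, true) := rfl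

theorem pr_iter {n : ℕ} (j : ℕ) (i : ZMod n) (b : Bool) : pr^[2 * j] (i, b) = (i - j, b) := by
  induction j with
  | zero => simp
  | succ j ih =>
    rw [show 2 * (j + 1) = 2 + 2 * j by ring, Function.iterate_add_apply, ih]
    cases b
    · show pr (pr (i - (j : ZMod n), false)) = _
      rw [pr_false, pr_true]
      push_cast
      congr 1
      ring
    · show pr (pr (i - (j : ZMod n), true)) = _
      rw [pr_true, pr_false]
      push_cast
      congr 1
      ring

theorem pr_trans {n : ℕ} [NeZero n] (p q : ZMod n × Bool) : ∃ j, pr^[j] p = q := by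
  have key : ∀ (i k : ZMod n) (b : Bool), ∃ j, pr^[j] (i, b) = (k, b) := by
    intro i k b
    refine ⟨2 * (i - k).val, ?_⟩
    rw [pr_iter, ZMod.natCast_zmod_val]
    congr 1
    ring
  rcases p with ⟨i, b⟩
  rcases q with ⟨k, c⟩
  by_cases hbc : b = c
  · subst hbc
    exact key i k b
  · cases b
    · have hc : c = true := by cases c <;> simp_all
      subst hc
      obtain ⟨j, hj⟩ := key (i - 1) k true
      exact ⟨j + 1, by rw [Function.iterate_succ_apply, pr_false, hj]⟩
    · have hc : c = false := by cases c <;> simp_all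
      subst hc
      obtain ⟨j, hj⟩ := key i k false
      exact ⟨j + 1, by rw [Function.iterate_succ_apply, pr_true, hj]⟩

/-- The roots of the positions of a word. -/
theorem exists_root {n : ℕ} [NeZero n] (w : ZMod n × Bool → St) :
    ∃ R : ZMod n × Bool → ZMod n × Bool,
      (∀ p, w p = .C → R p = R (pr p)) ∧ (∀ p, w p ≠ .C → R p = p) ∧ (∀ p, R (R p) = R p) ∧
      (∃ p₀, ∀ p, (R p = p ∧ w p = .C) ↔ ((∀ q, w q = .C) ∧ p = p₀)) ∧
      (∀ y : ZMod n × Bool → ℝ, (∀ p, w p = .C → y p = y (pr p)) → ∀ p, y p = y (R p)) := by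
  classical
  by_cases hC : ∀ q, w q = .C
  · refine ⟨fun _ => (0, false), fun _ _ => rfl, fun p hp => absurd (hC p) hp, fun _ => rfl,
      ⟨(0, false), fun p => ?_⟩, fun y hy p => ?_⟩
    · constructor
      · rintro ⟨h, _⟩
        exact ⟨hC, h.symm⟩
      · rintro ⟨_, h⟩
        exact ⟨h.symm, hC p⟩
    · obtain ⟨j, hj⟩ := pr_trans p (0, false)
      have : ∀ j, y p = y (pr^[j] p) := by
        intro j
        induction j with
        | zero => rfl
        | succ j ih => rw [ih, hy _ (hC _), Function.iterate_succ_apply']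
      rw [this j, hj]
  · push Not at hC
    obtain ⟨q, hq⟩ := hC
    have hex : ∀ p, ∃ j, w (pr^[j] p) ≠ .C := fun p => by
      obtain ⟨j, hj⟩ := pr_trans p q
      exact ⟨j, by rw [hj]; exact hq⟩
    have hR : ∀ p, w (pr^[Nat.find (hex p)] p) ≠ .C := fun p => Nat.find_spec (hex p)
    have h0 : ∀ p, w p ≠ .C → pr^[Nat.find (hex p)] p = p := fun p hp => by
      rw [(Nat.find_eq_zero (hex p)).2 hp]
      rfl
    refine ⟨fun p => pr^[Nat.find (hex p)] p, fun p hp => ?_, h0, fun p => h0 _ (hR p),
      ⟨q, fun p => ?_⟩, fun y hy p => ?_⟩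
    · have h1 : Nat.find (hex p) = Nat.find (hex (pr p)) + 1 := by
        apply (Nat.find_eq_iff (hex p)).2
        constructor
        · rw [Function.iterate_succ_apply]
          exact hR (pr p)
        · intro m hm
          rcases m with _ | m
          · exact not_not.2 hp
          · rw [Function.iterate_succ_apply]
            exact Nat.find_min (hex (pr p)) (by omega)
      show pr^[Nat.find (hex p)] p = pr^[Nat.find (hex (pr p))] (pr p)
      rw [h1, Function.iterate_succ_apply]
    · constructor
      · rintro ⟨h1, h2⟩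
        exfalso
        apply hR p
        have h1' : pr^[Nat.find (hex p)] p = p := h1
        rw [h1']
        exact h2
      · rintro ⟨h, _⟩
        exact absurd (h q) hq
    · have : ∀ j, j ≤ Nat.find (hex p) → y p = y (pr^[j] p) := by
        intro j
        induction j with
        | zero => intro _; rfl
        | succ j ih =>
          intro hj
          have h2 : w (pr^[j] p) = .C := by
            have := Nat.find_min (hex p) (by omega : j < _)
            exact not_not.1 this
          rw [ih (by omega), hy _ h2, Function.iterate_succ_apply']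
      exact this _ le_rfl

/-- The dimension of a space of functions given by root equations. -/
theorem finrank_root {Y : Type*} [Fintype Y] (ρ : Y → Option Y)
    (hρ : ∀ a b, ρ a = some b → ρ b = some b) (D : Submodule ℝ (Y → ℝ))
    (hD : ∀ y, y ∈ D ↔ ∀ a, y a = (ρ a).elim 0 y) :
    Module.finrank ℝ D = Set.ncard {b | ρ b = some b} := by
  classical
  let S := {b : Y // ρ b = some b}
  let f : D →ₗ[ℝ] (S → ℝ) :=
    { toFun := fun y b => y.1 b.1
      map_add' := fun _ _ => rfl
      map_smul' := fun _ _ => rfl }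
  have hinj : Function.Injective f := by
    rw [← LinearMap.ker_eq_bot, LinearMap.ker_eq_bot']
    intro y hy
    ext a
    rw [(hD y.1).1 y.2 a]
    rcases h : ρ a with _ | b
    · rfl
    · exact congrFun hy ⟨b, hρ a b h⟩
  have hsurj : Function.Surjective f := by
    intro g
    let G : Y → ℝ := fun b => if h : ρ b = some b then g ⟨b, h⟩ else 0
    refine ⟨⟨fun a => (ρ a).elim 0 G, ?_⟩, ?_⟩
    · rw [hD]
      intro a
      rcases h : ρ a with _ | b
      · rfl
      · show G b = (ρ b).elim 0 G
        rw [hρ a b h]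
        rfl
    · funext b
      show (ρ b.1).elim 0 G = g b
      rw [b.2]
      show G b.1 = g b
      simp only [G]
      rw [dif_pos b.2]
  rw [(LinearEquiv.ofBijective f ⟨hinj, hsurj⟩).finrank_eq, Module.finrank_fintype_fun_eq_card,
    ← Nat.card_coe_set_eq, Nat.card_eq_fintype_card]
  rfl

/-- The inequalities of the order polytope. -/
inductive Con (n : ℕ)
  | b0 | t1 | bt
  | lo (p : ZMod n × Bool)
  | hi (p : ZMod n × Bool)
  | st (p : ZMod n × Bool)

instance (n : ℕ) [NeZero n] : Finite (Con n) := by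
  let f : (Bool ⊕ Unit) ⊕ ((ZMod n × Bool) ⊕ ((ZMod n × Bool) ⊕ (ZMod n × Bool))) → Con n :=
    fun s => match s with
      | .inl (.inl false) => .b0
      | .inl (.inl true) => .t1
      | .inl (.inr _) => .bt
      | .inr (.inl p) => .lo p
      | .inr (.inr (.inl p)) => .hi p
      | .inr (.inr (.inr p)) => .st p
  apply Finite.of_surjective f
  intro c
  cases c with
  | b0 => exact ⟨.inl (.inl false), rfl⟩
  | t1 => exact ⟨.inl (.inl true), rfl⟩
  | bt => exact ⟨.inl (.inr ()), rfl⟩
  | lo p => exact ⟨.inr (.inl p), rfl⟩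
  | hi p => exact ⟨.inr (.inr (.inl p)), rfl⟩
  | st p => exact ⟨.inr (.inr (.inr p)), rfl⟩

section

variable {n : ℕ} {Y : Type*} [Fintype Y] (e : Bool ⊕ (ZMod n × Bool) ≃ Y)

/-- bottom, top, and the elements of the zigzag -/
def yb : Y := e (Sum.inl false)
def yt : Y := e (Sum.inl true)
def yp (p : ZMod n × Bool) : Y := e (Sum.inr p)

/-- the smaller and the larger element of the pair `p`, `pr p` -/
def sm : ZMod n × Bool → ZMod n × Bool
  | (i, true) => (i, false)
  | (i, false) => (i, false)
def la : ZMod n × Bool → ZMod n × Bool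
  | (i, true) => (i, true)
  | (i, false) => (i - 1, true)

/-- evaluation -/
def ev (a : Y) : (Y → ℝ) →ₗ[ℝ] ℝ := LinearMap.proj a

omit [Fintype Y] in
theorem ev_apply (a : Y) (x : Y → ℝ) : ev a x = x a := rfl

/-- left-hand sides of the inequalities -/
def cc : Con n → (Y → ℝ) →ₗ[ℝ] ℝ
  | .b0 => - ev (yb e)
  | .t1 => ev (yt e)
  | .bt => ev (yb e) - ev (yt e)
  | .lo p => ev (yb e) - ev (yp e p)
  | .hi p => ev (yp e p) - ev (yt e)
  | .st p => ev (yp e (sm p)) - ev (yp e (la p))

/-- right-hand sides of the inequalities -/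
def dd : Con n → ℝ
  | .t1 => 1
  | _ => 0

/-- the conditions defining the order polytope -/
structure InK (x : Y → ℝ) : Prop where
  b0 : 0 ≤ x (yb e)
  t1 : x (yt e) ≤ 1
  bt : x (yb e) ≤ x (yt e)
  lo : ∀ p, x (yb e) ≤ x (yp e p)
  hi : ∀ p, x (yp e p) ≤ x (yt e)
  st : ∀ p, x (yp e (sm p)) ≤ x (yp e (la p))

theorem mem_poly_iff {x : Y → ℝ} : x ∈ poly (cc e) (dd (n := n)) ↔ InK e x := by
  constructor
  · intro h
    have h1 := h .b0
    have h2 := h .t1
    have h3 := h .bt
    simp only [cc, dd, LinearMap.neg_apply, LinearMap.sub_apply, ev_apply] at h1 h2 h3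
    refine ⟨by linarith, h2, by linarith, fun p => ?_, fun p => ?_, fun p => ?_⟩
    · have := h (.lo p)
      simp only [cc, dd, LinearMap.sub_apply, ev_apply] at this
      linarith
    · have := h (.hi p)
      simp only [cc, dd, LinearMap.sub_apply, ev_apply] at this
      linarith
    · have := h (.st p)
      simp only [cc, dd, LinearMap.sub_apply, ev_apply] at this
      linarith
  · intro h c
    cases c with
    | b0 =>
      simp only [cc, dd, LinearMap.neg_apply, ev_apply]
      linarith [h.b0]
    | t1 =>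
      simp only [cc, dd, ev_apply]
      exact h.t1
    | bt =>
      simp only [cc, dd, LinearMap.sub_apply, ev_apply]
      linarith [h.bt]
    | lo p =>
      simp only [cc, dd, LinearMap.sub_apply, ev_apply]
      linarith [h.lo p]
    | hi p =>
      simp only [cc, dd, LinearMap.sub_apply, ev_apply]
      linarith [h.hi p]
    | st p =>
      simp only [cc, dd, LinearMap.sub_apply, ev_apply]
      linarith [h.st p]

omit [Fintype Y] in
theorem smla (x : Y → ℝ) (p : ZMod n × Bool) :
    x (yp e (sm p)) = x (yp e (la p)) ↔ x (yp e p) = x (yp e (pr p)) := by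
  rcases p with ⟨i, b⟩
  cases b
  · exact Iff.rfl
  · exact eq_comm

theorem t_b0 {x : Y → ℝ} : Con.b0 ∈ tight (cc e) (dd (n := n)) x ↔ x (yb e) = 0 := by
  simp only [tight, Set.mem_ofPred_eq, cc, dd, LinearMap.neg_apply, ev_apply, neg_eq_zero]

theorem t_t1 {x : Y → ℝ} : Con.t1 ∈ tight (cc e) (dd (n := n)) x ↔ x (yt e) = 1 := by
  simp only [tight, Set.mem_ofPred_eq, cc, dd, ev_apply]

theorem t_bt {x : Y → ℝ} : Con.bt ∈ tight (cc e) (dd (n := n)) x ↔ x (yb e) = x (yt e) := by
  simp only [tight, Set.mem_ofPred_eq, cc, dd, LinearMap.sub_apply, ev_apply, sub_eq_zero]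

theorem t_lo {x : Y → ℝ} {p : ZMod n × Bool} :
    Con.lo p ∈ tight (cc e) (dd (n := n)) x ↔ x (yp e p) = x (yb e) := by
  simp only [tight, Set.mem_ofPred_eq, cc, dd, LinearMap.sub_apply, ev_apply, sub_eq_zero]
  exact eq_comm

theorem t_hi {x : Y → ℝ} {p : ZMod n × Bool} :
    Con.hi p ∈ tight (cc e) (dd (n := n)) x ↔ x (yp e p) = x (yt e) := by
  simp only [tight, Set.mem_ofPred_eq, cc, dd, LinearMap.sub_apply, ev_apply, sub_eq_zero]

theorem t_st {x : Y → ℝ} {p : ZMod n × Bool} :
    Con.st p ∈ tight (cc e) (dd (n := n)) x ↔ x (yp e p) = x (yp e (pr p)) := by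
  simp only [tight, Set.mem_ofPred_eq, cc, dd, LinearMap.sub_apply, ev_apply, sub_eq_zero]
  exact smla e x p

end

end Pool.Agent.R916.OP
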