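import Pool.Agent.R916.OP.Code

/-!
The codes of the points of the polytope are exactly the good ones.
-/

namespace Pool.Agent.R916.OP

open Finset
open Pool.Agent.W304.HL

/-- potentials on a cycle -/
theorem exists_pot0 {n : ℕ} [NeZero n] (τ : ZMod n → ℝ) (h : ∑ i, τ i = 0) :
    ∃ G : ZMod n → ℝ, ∀ i, G i - G (i - 1) = τ i := by
  obtain ⟨m, rfl⟩ : ∃ m, n = m + 1 := ⟨n - 1, by have := NeZero.ne n; omega⟩
  refine ⟨fun i => ∑ j ∈ Finset.range (i.val + 1), τ (j : ZMod (m + 1)), fun i => ?_⟩
  simp only
  by_cases hi : i = 0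
  · subst hi
    have h1 : (0 - 1 : ZMod (m + 1)).val = m := by
      rw [zero_sub]; exact ZMod.val_neg_one m
    have h2 : ∑ j ∈ Finset.range (m + 1), τ (j : ZMod (m + 1)) = ∑ i, τ i := by
      rw [Finset.sum_range]
      apply Fintype.sum_congr
      intro a
      exact congrArg τ (Fin.cast_val_eq_self a)
    rw [h1, h2, h]
    simp
  · have h0 : i.val ≠ 0 := fun h' => hi ((ZMod.val_eq_zero i).1 h')
    obtain ⟨k, hk⟩ : ∃ k, i.val = k + 1 := ⟨i.val - 1, by omega⟩
    have hlt := ZMod.val_lt i
    have h1 : i = ((k + 1 : ℕ) : ZMod (m + 1)) := by rw [← hk, ZMod.natCast_zmod_val]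
    have h2 : (i - 1).val = k := by
      rw [h1]
      have : (((k + 1 : ℕ) : ZMod (m + 1)) - 1) = (k : ZMod (m + 1)) := by push_cast; ring
      rw [this, ZMod.val_natCast_of_lt (by omega)]
    rw [h2, hk, Finset.sum_range_succ _ (k + 1), ← h1]
    ring

theorem exists_pot {n : ℕ} [NeZero n] (σ : ZMod n × Bool → ℝ) (h : ∑ p, σ p = 0) :
    ∃ H : ZMod n × Bool → ℝ, ∀ p, H p - H (pr p) = σ p := by
  obtain ⟨G, hG⟩ := exists_pot0 (fun i => σ (i, true) + σ (i, false)) (by
    rw [Fintype.sum_prod_type] at h
    simpa only [Fintype.sum_bool] using h)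
  refine ⟨fun p => if p.2 then G p.1 else G (p.1 - 1) + σ (p.1, false), fun p => ?_⟩
  rcases p with ⟨i, b⟩
  cases b
  · rw [pr_false]
    simp
  · rw [pr_true]
    have := hG i
    simp only [if_true, Bool.false_eq_true, if_false]
    linarith

theorem exists_sigma {n : ℕ} [NeZero n] {w : ZMod n × Bool → St} (hw : Good w) :
    ∃ σ : ZMod n × Bool → ℝ, ∑ p, σ p = 0 ∧ (∀ i, w (i, true) = .N → 0 < σ (i, true)) ∧
      (∀ i, w (i, false) = .N → σ (i, false) < 0) ∧ (∀ p, w p = .C → σ p = 0) := by
  classical
  rcases hw.2 with ⟨p₀, hp₀⟩ | hC | ⟨⟨i₀, hi₀⟩, ⟨i₁, hi₁⟩⟩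
  · let σ₀ : ZMod n × Bool → ℝ := fun p => if w p = .N then (if p.2 then 1 else -1) else 0
    have hN : ∀ p, w p = .N → p ≠ p₀ := by
      rintro p hp rfl
      rw [hp] at hp₀
      rcases hp₀ with h | h <;> cases h
    have hC : ∀ p, w p = .C → p ≠ p₀ := by
      rintro p hp rfl
      rw [hp] at hp₀
      rcases hp₀ with h | h <;> cases h
    refine ⟨fun p => σ₀ p - if p = p₀ then ∑ q, σ₀ q else 0, ?_, fun i hi => ?_, fun i hi => ?_,
      fun p hp => ?_⟩
    · rw [Finset.sum_sub_distrib, Finset.sum_ite_eq' Finset.univ, if_pos (Finset.mem_univ _), sub_self]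
    · simp only [if_neg (hN _ hi), sub_zero, σ₀, if_pos hi]
      norm_num
    · simp only [if_neg (hN _ hi), sub_zero, σ₀, if_pos hi]
      norm_num
    · simp only [if_neg (hC _ hp), sub_zero, σ₀, hp]
      simp
  · refine ⟨fun _ => 0, by simp, fun i hi => ?_, fun i hi => ?_, fun _ _ => rfl⟩
    · rw [hC] at hi; cases hi
    · rw [hC] at hi; cases hi
  · let a : ℝ := ((Finset.univ.filter (fun i : ZMod n => w (i, true) = .N)).card : ℝ)
    let b : ℝ := ((Finset.univ.filter (fun i : ZMod n => w (i, false) = .N)).card : ℝ)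
    have ha : 0 < a := by
      have : 0 < (Finset.univ.filter (fun i : ZMod n => w (i, true) = .N)).card :=
        Finset.card_pos.2 ⟨i₁, Finset.mem_filter.2 ⟨Finset.mem_univ _, hi₁⟩⟩
      simp only [a]
      exact_mod_cast this
    have hb : 0 < b := by
      have : 0 < (Finset.univ.filter (fun i : ZMod n => w (i, false) = .N)).card :=
        Finset.card_pos.2 ⟨i₀, Finset.mem_filter.2 ⟨Finset.mem_univ _, hi₀⟩⟩
      simp only [b]
      exact_mod_cast this
    refine ⟨fun p => if w p = .N then (if p.2 then b else -a) else 0, ?_, fun i hi => ?_,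
      fun i hi => ?_, fun p hp => ?_⟩
    · rw [Fintype.sum_prod_type]
      simp only [Fintype.sum_bool, if_true, Bool.false_eq_true, if_false]
      rw [Finset.sum_add_distrib, Finset.sum_ite, Finset.sum_ite]
      simp only [Finset.sum_const, nsmul_eq_mul, mul_zero, add_zero]
      show a * b + b * (-a) = 0
      ring
    · simp only [if_pos hi, if_true]
      exact hb
    · simp only [if_pos hi, Bool.false_eq_true, if_false]
      linarith
    · simp only [hp]
      simp

theorem val_C {n : ℕ} {w : ZMod n × Bool → St} (hw : Val w) {p : ZMod n × Bool} (hp : w p = .C) :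
    w (pr p) = .N ∨ w (pr p) = .C := by
  rcases p with ⟨i, b⟩
  cases b
  · have h := (hw (i - 1)).2
    rw [sub_add_cancel, hp] at h
    rw [pr_false]
    rcases hh : w (i - 1, true) with _ | _ | _ | _ <;> rw [hh] at h <;> simp [dn] at h ⊢
  · have h := (hw i).1
    rw [hp] at h
    rw [pr_true]
    rcases hh : w (i, false) with _ | _ | _ | _ <;> rw [hh] at h <;> simp [up] at h ⊢

section

variable {n : ℕ} {Y : Type*} (e : Bool ⊕ (ZMod n × Bool) ≃ Y)

theorem good_stt [NeZero n] {x : Y → ℝ} (hx : InK e x) (h : x (yb e) ≠ x (yt e)) :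
    Good (stt e x) := by
  have hu : ∀ i, x (yp e (i, false)) ≤ x (yp e (i, true)) := fun i => hx.st (i, true)
  have hd : ∀ i, x (yp e (i + 1, false)) ≤ x (yp e (i, true)) := fun i => by
    have := hx.st (i + 1, false)
    simp only [sm, la, add_sub_cancel_right] at this
    exact this
  refine ⟨fun i => ⟨?_, ?_⟩, ?_⟩
  · rcases hh : stt e x (i, false) with _ | _ | _ | _
    · show stt e x (i, true) ≠ .C
      intro hC
      obtain ⟨h1, _, h2⟩ := (stt_C e).1 hC
      exact h1 (h2.trans ((stt_Z e).1 hh))
    · show stt e x (i, true) = .O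
      rw [stt_O e h]
      exact le_antisymm (hx.hi _) (((stt_O e h).1 hh) ▸ hu i)
    · show stt e x (i, true) ≠ .Z
      intro hZ
      have h1 := (stt_Z e).1 hZ
      have h2 := hu i
      rw [h1] at h2
      exact ((stt_N e).1 hh).1 (le_antisymm h2 (hx.lo _))
    · show stt e x (i, true) ≠ .Z
      intro hZ
      have h1 := (stt_Z e).1 hZ
      have h2 := hu i
      rw [h1] at h2
      exact ((stt_C e).1 hh).1 (le_antisymm h2 (hx.lo _))
  · rcases hh : stt e x (i, true) with _ | _ | _ | _
    · show stt e x (i + 1, false) = .Z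
      rw [stt_Z e]
      exact le_antisymm (((stt_Z e).1 hh) ▸ hd i) (hx.lo _)
    · show stt e x (i + 1, false) ≠ .C
      intro hC
      obtain ⟨_, h1, h2⟩ := (stt_C e).1 hC
      rw [pr_false, add_sub_cancel_right] at h2
      exact h1 (h2.trans ((stt_O e h).1 hh))
    · show stt e x (i + 1, false) ≠ .O
      intro hO
      have h1 := (stt_O e h).1 hO
      have h2 := hd i
      rw [h1] at h2
      exact ((stt_N e).1 hh).2.1 (le_antisymm (hx.hi _) h2)
    · show stt e x (i + 1, false) ≠ .O
      intro hO
      have h1 := (stt_O e h).1 hO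
      have h2 := hd i
      rw [h1] at h2
      exact ((stt_C e).1 hh).2.1 (le_antisymm (hx.hi _) h2)
  · by_cases hz : ∃ p, stt e x p = .Z ∨ stt e x p = .O
    · exact Or.inl hz
    · right
      push Not at hz
      have hNC : ∀ p, stt e x p ≠ .N → stt e x p = .C := by
        intro p hp
        have := hz p
        rcases hh : stt e x p <;> simp_all
      have hne : ∀ p, x (yp e p) ≠ x (yb e) ∧ x (yp e p) ≠ x (yt e) := fun p =>
        ⟨fun h' => (hz p).1 ((stt_Z e).2 h'), fun h' => (hz p).2 ((stt_O e h).2 h')⟩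
      by_cases h0 : ∃ i, stt e x (i, false) = .N
      · by_cases h1 : ∃ i, stt e x (i, true) = .N
        · exact Or.inr ⟨h0, h1⟩
        · left
          push Not at h1
          have h2 : ∀ i, x (yp e (i, true)) = x (yp e (i, false)) := fun i =>
            ((stt_C e).1 (hNC _ (h1 i))).2.2
          have h3 : ∑ i : ZMod n, x (yp e (i + 1, false)) = ∑ i : ZMod n, x (yp e (i, true)) := by
            rw [Fintype.sum_congr _ _ h2]
            exact Fintype.sum_equiv (Equiv.addRight (1 : ZMod n)) _ _ (fun i => rfl)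
          have h4 := (Finset.sum_eq_sum_iff_of_le (fun i _ => hd i)).1 h3
          intro p
          rcases p with ⟨i, b⟩
          cases b
          · apply (stt_C e).2 ⟨(hne _).1, (hne _).2, ?_⟩
            have := h4 (i - 1) (Finset.mem_univ _)
            rw [sub_add_cancel] at this
            exact this
          · exact hNC _ (h1 i)
      · left
        push Not at h0
        have h2 : ∀ i, x (yp e (i, false)) = x (yp e (i - 1, true)) := fun i =>
          ((stt_C e).1 (hNC _ (h0 i))).2.2
        have h3 : ∑ i : ZMod n, x (yp e (i, false)) = ∑ i : ZMod n, x (yp e (i, true)) := by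
          rw [Fintype.sum_congr _ _ h2]
          exact Fintype.sum_equiv (Equiv.subRight (1 : ZMod n)) _ _ (fun i => rfl)
        have h4 := (Finset.sum_eq_sum_iff_of_le (fun i _ => hu i)).1 h3
        intro p
        rcases p with ⟨i, b⟩
        cases b
        · exact hNC _ (h0 i)
        · apply (stt_C e).2 ⟨(hne _).1, (hne _).2, ?_⟩
          exact (h4 i (Finset.mem_univ _)).symm

theorem realize [NeZero n] {w : ZMod n × Bool → St} (hw : Good w) (A B : Bool) :
    ∃ x : Y → ℝ, InK e x ∧ code e x = (A, B, some w) := by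
  classical
  obtain ⟨σ, hσ0, hσ1, hσ2, hσ3⟩ := exists_sigma hw
  obtain ⟨H, hH⟩ := exists_pot σ hσ0
  let M : ℝ := 1 + ∑ p, |H p|
  have hM : 0 < M := by
    have : 0 ≤ ∑ p, |H p| := Finset.sum_nonneg fun p _ => abs_nonneg _
    simp only [M]; linarith
  have hHM : ∀ p, |H p| ≤ M := fun p => by
    have := Finset.single_le_sum (f := fun p => |H p|) (fun p _ => abs_nonneg _) (Finset.mem_univ p)
    simp only [M]
    linarith
  let f : ZMod n × Bool → ℝ := fun p => 1 / 2 + H p / (8 * M)
  have hf : ∀ p, 3 / 8 ≤ f p ∧ f p ≤ 5 / 8 := fun p => by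
    have h1 : |H p / (8 * M)| ≤ 1 / 8 := by
      rw [abs_div, abs_of_pos (by positivity : 0 < 8 * M), div_le_iff₀ (by positivity)]
      linarith [hHM p]
    have h2 := abs_le.1 h1
    simp only [f]
    constructor <;> linarith [h2.1, h2.2]
  have hfeq : ∀ p q, f p = f q ↔ H p = H q := fun p q => by
    simp only [f]
    constructor
    · intro h
      have : H p / (8 * M) = H q / (8 * M) := by linarith
      rwa [div_left_inj' (by positivity)] at this
    · intro h; rw [h]
  have hfle : ∀ p q, H p ≤ H q → f p ≤ f q := fun p q h => by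
    simp only [f]
    have : H p / (8 * M) ≤ H q / (8 * M) := by gcongr
    linarith
  let u : ℝ := if A then 0 else 1 / 4
  let v : ℝ := if B then 1 else 3 / 4
  have hu0 : 0 ≤ u ∧ u ≤ 1 / 4 := by
    simp only [u]; cases A <;> norm_num
  have hv0 : 3 / 4 ≤ v ∧ v ≤ 1 := by
    simp only [v]; cases B <;> norm_num
  let x : Y → ℝ := fun a => match e.symm a with
    | .inl false => u
    | .inl true => v
    | .inr p => match w p with
      | .Z => u
      | .O => v
      | .N => f p
      | .C => f p
  have xb : x (yb e) = u := by simp only [x, yb, Equiv.symm_apply_apply]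
  have xt : x (yt e) = v := by simp only [x, yt, Equiv.symm_apply_apply]
  have xp : ∀ p, x (yp e p) = match w p with
      | .Z => u
      | .O => v
      | .N => f p
      | .C => f p := fun p => by simp only [x, yp, Equiv.symm_apply_apply]
  have xZ : ∀ p, w p = .Z → x (yp e p) = u := fun p hp => by rw [xp, hp]
  have xO : ∀ p, w p = .O → x (yp e p) = v := fun p hp => by rw [xp, hp]
  have xN : ∀ p, w p = .N → x (yp e p) = f p := fun p hp => by rw [xp, hp]
  have xC : ∀ p, w p = .C → x (yp e p) = f p := fun p hp => by rw [xp, hp]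
  have hlo : ∀ p, u ≤ x (yp e p) := fun p => by
    rcases hh : w p
    · rw [xZ p hh]
    · rw [xO p hh]; linarith [hu0.2, hv0.1]
    · rw [xN p hh]; linarith [hu0.2, (hf p).1]
    · rw [xC p hh]; linarith [hu0.2, (hf p).1]
  have hhi : ∀ p, x (yp e p) ≤ v := fun p => by
    rcases hh : w p
    · rw [xZ p hh]; linarith [hu0.2, hv0.1]
    · rw [xO p hh]
    · rw [xN p hh]; linarith [hv0.1, (hf p).2]
    · rw [xC p hh]; linarith [hv0.1, (hf p).2]
  have hHC : ∀ p, w p = .C → H p = H (pr p) := fun p hp => by
    have := hH p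
    rw [hσ3 p hp] at this
    linarith
  have hst : ∀ p, x (yp e (sm p)) ≤ x (yp e (la p)) := by
    intro p
    rcases p with ⟨i, b⟩
    cases b
    · show x (yp e (i, false)) ≤ x (yp e (i - 1, true))
      have hv := (hw.1 (i - 1)).2
      rw [sub_add_cancel] at hv
      have hN : w (i, false) = .N → H (i, false) ≤ H (i - 1, true) := fun h => by
        have h1 := hH (i, false)
        have h2 := hσ2 i h
        rw [pr_false] at h1
        linarith
      have hC : w (i, false) = .C → H (i, false) ≤ H (i - 1, true) := fun h => (hHC _ h).le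
      rcases h1 : w (i - 1, true)
      · rw [h1] at hv
        have h2 : w (i, false) = .Z := hv
        rw [xZ _ h1, xZ _ h2]
      · rw [xO _ h1]; exact hhi _
      · rw [h1] at hv
        have h2 : w (i, false) ≠ .O := hv
        rcases h3 : w (i, false)
        · rw [xZ _ h3]; exact hlo _
        · exact absurd h3 h2
        · rw [xN _ h3, xN _ h1]; exact hfle _ _ (hN h3)
        · rw [xC _ h3, xN _ h1]; exact hfle _ _ (hC h3)
      · rw [h1] at hv
        have h2 : w (i, false) ≠ .O := hv
        rcases h3 : w (i, false)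
        · rw [xZ _ h3]; exact hlo _
        · exact absurd h3 h2
        · rw [xN _ h3, xC _ h1]; exact hfle _ _ (hN h3)
        · rw [xC _ h3, xC _ h1]; exact hfle _ _ (hC h3)
    · show x (yp e (i, false)) ≤ x (yp e (i, true))
      have hv := (hw.1 i).1
      have hN : w (i, true) = .N → H (i, false) ≤ H (i, true) := fun h => by
        have h1 := hH (i, true)
        have h2 := hσ1 i h
        rw [pr_true] at h1
        linarith
      have hC : w (i, true) = .C → H (i, false) ≤ H (i, true) := fun h => (hHC _ h).ge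
      rcases h1 : w (i, false)
      · rw [xZ _ h1]; exact hlo _
      · rw [h1] at hv
        have h2 : w (i, true) = .O := hv
        rw [xO _ h1, xO _ h2]
      · rw [h1] at hv
        have h2 : w (i, true) ≠ .Z := hv
        rcases h3 : w (i, true)
        · exact absurd h3 h2
        · rw [xO _ h3]; exact hhi _
        · rw [xN _ h3, xN _ h1]; exact hfle _ _ (hN h3)
        · rw [xC _ h3, xN _ h1]; exact hfle _ _ (hC h3)
      · rw [h1] at hv
        have h2 : w (i, true) ≠ .Z := hv
        rcases h3 : w (i, true)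
        · exact absurd h3 h2
        · rw [xO _ h3]; exact hhi _
        · rw [xN _ h3, xC _ h1]; exact hfle _ _ (hN h3)
        · rw [xC _ h3, xC _ h1]; exact hfle _ _ (hC h3)
  have hK : InK e x := by
    refine ⟨by rw [xb]; exact hu0.1, by rw [xt]; exact hv0.2, ?_, ?_, ?_, hst⟩
    · rw [xb, xt]; linarith [hu0.2, hv0.1]
    · intro p; rw [xb]; exact hlo p
    · intro p; rw [xt]; exact hhi p
  refine ⟨x, hK, ?_⟩
  have hne : x (yb e) ≠ x (yt e) := by
    rw [xb, xt]
    intro h
    linarith [hu0.2, hv0.1]
  have hA : decide (x (yb e) = 0) = A := by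
    rw [xb]
    simp only [u]
    cases A <;> simp
  have hB : decide (x (yt e) = 1) = B := by
    rw [xt]
    simp only [v]
    cases B
    · simp only [Bool.false_eq_true, if_false, decide_eq_false_iff_not]
      norm_num
    · simp
  have hs : stt e x = w := by
    funext p
    rcases hh : w p
    · rw [stt_Z, xb]; exact xZ p hh
    · rw [stt_O e hne, xt]; exact xO p hh
    · rw [stt_N, xb, xt, xN p hh]
      refine ⟨fun h => by linarith [hu0.2, (hf p).1], fun h => by linarith [hv0.1, (hf p).2], ?_⟩
      intro h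
      have h1 : w (pr p) = .N ∨ w (pr p) = .C := by
        rcases h2 : w (pr p)
        · rw [xZ _ h2] at h
          exfalso; linarith [hu0.2, (hf p).1]
        · rw [xO _ h2] at h
          exfalso; linarith [hv0.1, (hf p).2]
        · exact Or.inl rfl
        · exact Or.inr rfl
      have h3 : x (yp e (pr p)) = f (pr p) := by
        rcases h1 with h1 | h1
        · exact xN _ h1
        · exact xC _ h1
      rw [h3, hfeq] at h
      have h4 := hH p
      rw [h, sub_self] at h4
      rcases p with ⟨i, b⟩
      cases b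
      · have := hσ2 i hh
        linarith
      · have := hσ1 i hh
        linarith
    · rw [stt_C, xb, xt, xC p hh]
      refine ⟨fun h => by linarith [hu0.2, (hf p).1], fun h => by linarith [hv0.1, (hf p).2], ?_⟩
      have h3 : x (yp e (pr p)) = f (pr p) := by
        rcases val_C hw.1 hh with h1 | h1
        · exact xN _ h1
        · exact xC _ h1
      rw [h3, hfeq]
      exact hHC p hh
  unfold code
  rw [if_neg hne, hs, hA, hB]

/-- the codes that occur -/
def GoodCode (c : Code n) : Prop := match c with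
  | (A, B, none) => ¬ (A = true ∧ B = true)
  | (_, _, some w) => Good w

theorem goodCode_code [NeZero n] {x : Y → ℝ} (hx : InK e x) : GoodCode (code e x) := by
  by_cases h : x (yb e) = x (yt e)
  · unfold code
    rw [if_pos h]
    show ¬ (_ ∧ _)
    rintro ⟨h1, h2⟩
    rw [decide_eq_true_iff] at h1 h2
    rw [h1, h2] at h
    norm_num at h
  · unfold code
    rw [if_neg h]
    exact good_stt e hx h

theorem exists_code [NeZero n] {c : Code n} (hc : GoodCode c) :
    ∃ x : Y → ℝ, InK e x ∧ code e x = c := by
  rcases c with ⟨A, B, _ | w⟩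
  · have hAB : ¬ (A = true ∧ B = true) := hc
    obtain ⟨r, hr0, hr1, hrA, hrB⟩ : ∃ r : ℝ, 0 ≤ r ∧ r ≤ 1 ∧ (r = 0 ↔ A = true) ∧
        (r = 1 ↔ B = true) := by
      cases A
      · cases B
        · exact ⟨1 / 2, by norm_num, by norm_num, by norm_num, by norm_num⟩
        · exact ⟨1, by norm_num, by norm_num, by norm_num, by norm_num⟩
      · cases B
        · exact ⟨0, by norm_num, by norm_num, by norm_num, by norm_num⟩
        · exact absurd ⟨rfl, rfl⟩ hAB
    refine ⟨fun _ => r, ⟨hr0, hr1, le_rfl, fun _ => le_rfl, fun _ => le_rfl, fun _ => le_rfl⟩, ?_⟩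
    unfold code
    rw [if_pos rfl]
    congr 1
    · cases A
      · rw [decide_eq_false_iff_not, hrA]; simp
      · rw [decide_eq_true_iff, hrA]
    · congr 1
      cases B
      · rw [decide_eq_false_iff_not, hrB]; simp
      · rw [decide_eq_true_iff, hrB]
  · exact realize e hc A B

end

end Pool.Agent.R916.OP
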