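import Pool.Agent.R916.OP.LC

/-!
Words on the cyclic zigzag and the transfer matrix.
-/

namespace Pool.Agent.R916.OP

open Finset Matrix

/-- The state of an element of the zigzag with respect to a point of the order polytope:
`Z`: its value is the value of the bottom element; `O`: the value of the top element; `C`: neither,
and the value is equal to the one of its predecessor; `N`: none of these. -/
inductive St | Z | O | N | C
  deriving DecidableEq

instance : Fintype St := ⟨{.Z, .O, .N, .C}, fun x => by cases x <;> simp⟩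

/-- allowed steps to a larger element -/
def up : St → St → Prop
  | .Z, b => b ≠ .C
  | .O, b => b = .O
  | .N, b => b ≠ .Z
  | .C, b => b ≠ .Z

/-- allowed steps to a smaller element -/
def dn : St → St → Prop
  | .Z, b => b = .Z
  | .O, b => b ≠ .C
  | .N, b => b ≠ .O
  | .C, b => b ≠ .O

instance (a b : St) : Decidable (up a b) := by
  cases a <;> unfold up <;> infer_instance

instance (a b : St) : Decidable (dn a b) := by
  cases a <;> unfold dn <;> infer_instance

/-- Weighted path sums are traces of matrix products. -/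
theorem path_sum {S R : Type*} [Fintype S] [DecidableEq S] [CommRing R] (M : Matrix S S R) (m : ℕ) :
    ∀ K : Matrix S S R, ∑ v : Fin (m + 1) → S,
      (∏ i : Fin m, M (v i.castSucc) (v i.succ)) * K (v (Fin.last m)) (v 0) =
        (M ^ m * K).trace := by
  induction m with
  | zero =>
    intro K
    simp only [Finset.univ_eq_empty, Finset.prod_empty, one_mul, pow_zero, Matrix.trace,
      Matrix.diag_apply]
    exact Fintype.sum_equiv (Equiv.funUnique (Fin 1) S) _ _ (fun v => rfl)
  | succ m ih =>
    intro K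
    have h1 : (M ^ (m + 1) * K).trace = (M ^ m * (K * M)).trace := by
      rw [pow_succ', Matrix.mul_assoc, Matrix.trace_mul_comm, Matrix.mul_assoc]
    rw [h1, ← ih (K * M), ← (Fin.consEquiv (fun _ : Fin (m + 2) => S)).sum_comp,
      Fintype.sum_prod_type_right]
    apply Finset.sum_congr rfl
    intro v _
    rw [Matrix.mul_apply, Finset.mul_sum]
    apply Finset.sum_congr rfl
    intro a _
    rw [Fin.prod_univ_succ]
    have e1 : ∀ i : Fin m, (Fin.consEquiv (fun _ : Fin (m + 2) => S)) (a, v) i.succ.castSucc =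
        v i.castSucc := fun i => by
      simp only [Fin.consEquiv_apply]
      rw [← Fin.succ_castSucc]
      rfl
    have e2 : ∀ i : Fin m, (Fin.consEquiv (fun _ : Fin (m + 2) => S)) (a, v) i.succ.succ =
        v i.succ := fun i => rfl
    have e3 : (Fin.consEquiv (fun _ : Fin (m + 2) => S)) (a, v) (Fin.last (m + 1)) =
        v (Fin.last m) := by
      rw [← Fin.succ_last]; rfl
    have e4 : (Fin.consEquiv (fun _ : Fin (m + 2) => S)) (a, v) (Fin.castSucc 0) = a := rfl
    have e5 : (Fin.consEquiv (fun _ : Fin (m + 2) => S)) (a, v) (Fin.succ 0) = v 0 := rfl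
    have e6 : (Fin.consEquiv (fun _ : Fin (m + 2) => S)) (a, v) 0 = a := rfl
    simp only [e1, e2, e3, e4, e5, e6]
    ring

theorem cyc_sum {S R : Type*} [Fintype S] [DecidableEq S] [CommRing R] (M : Matrix S S R) (m : ℕ) :
    ∑ v : Fin (m + 1) → S, ∏ i : Fin (m + 1), M (v i) (v (i + 1)) = (M ^ (m + 1)).trace := by
  rw [pow_succ, ← path_sum M m M]
  apply Finset.sum_congr rfl
  intro v _
  rw [Fin.prod_univ_castSucc, Fin.last_add_one]
  congr 1
  apply Finset.prod_congr rfl
  intro i _
  rw [Fin.coeSucc_eq_succ]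

/-- the weight of a state -/
def wt (t : ℝ) (b : St) : ℝ := if b = .N then t else 1

def UU (t : ℝ) : Matrix St St ℝ := fun a b => if up a b then wt t b else 0
def DD (t : ℝ) : Matrix St St ℝ := fun a b => if dn a b then wt t b else 0

/-- `N` positions -/
noncomputable def nN {X : Type*} [Fintype X] (w : X → St) : ℕ :=
  (Finset.univ.filter (fun p => w p = .N)).card

/-- the local conditions on a word -/
def Val {n : ℕ} (w : ZMod n × Bool → St) : Prop :=
  ∀ i, up (w (i, false)) (w (i, true)) ∧ dn (w (i, true)) (w (i + 1, false))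

open Classical in
theorem sum_val (n : ℕ) [NeZero n] (t : ℝ) :
    ∑ w : ZMod n × Bool → St, (if Val w then t ^ nN w else 0) =
      ((UU t * DD t) ^ n).trace := by
  have h1 : ∀ w : ZMod n × Bool → St, (if Val w then t ^ nN w else 0) =
      ∏ i : ZMod n, UU t (w (i, false)) (w (i, true)) * DD t (w (i, true)) (w (i + 1, false)) := by
    intro w
    by_cases h : Val w
    · rw [if_pos h]
      have h2 : ∀ i, UU t (w (i, false)) (w (i, true)) * DD t (w (i, true)) (w (i + 1, false)) =
          wt t (w (i, true)) * wt t (w (i + 1, false)) := by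
        intro i
        unfold UU DD
        rw [if_pos (h i).1, if_pos (h i).2]
      rw [Finset.prod_congr rfl fun i _ => h2 i, Finset.prod_mul_distrib]
      have h3 : ∏ i : ZMod n, wt t (w (i + 1, false)) = ∏ i : ZMod n, wt t (w (i, false)) :=
        Fintype.prod_equiv (Equiv.addRight (1 : ZMod n)) _ _ (fun i => rfl)
      rw [h3, ← Finset.prod_mul_distrib]
      have h4 : t ^ nN w = ∏ p : ZMod n × Bool, wt t (w p) := by
        unfold nN wt
        rw [Finset.prod_ite, Finset.prod_const, Finset.prod_const_one, mul_one]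
      rw [h4, Fintype.prod_prod_type]
      apply Finset.prod_congr rfl
      intro i _
      rw [Fintype.prod_bool]
    · rw [if_neg h]
      unfold Val at h
      push Not at h
      obtain ⟨i, hi⟩ := h
      symm
      apply Finset.prod_eq_zero (Finset.mem_univ i)
      unfold UU DD
      by_cases hu : up (w (i, false)) (w (i, true))
      · rw [if_neg (hi hu), mul_zero]
      · rw [if_neg hu, zero_mul]
  rw [Finset.sum_congr rfl fun w _ => h1 w]
  -- split the words
  let e : (ZMod n → St) × (ZMod n → St) ≃ (ZMod n × Bool → St) :=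
    { toFun := fun p q => if q.2 then p.2 q.1 else p.1 q.1
      invFun := fun w => (fun i => w (i, false), fun i => w (i, true))
      left_inv := fun p => rfl
      right_inv := fun w => by
        funext q
        rcases q with ⟨i, b⟩
        cases b <;> rfl }
  rw [← e.sum_comp, Fintype.sum_prod_type]
  have h5 : ∀ v : ZMod n → St, ∑ u : ZMod n → St,
      ∏ i : ZMod n, UU t (e (v, u) (i, false)) (e (v, u) (i, true)) *
        DD t (e (v, u) (i, true)) (e (v, u) (i + 1, false)) =
      ∏ i : ZMod n, (UU t * DD t) (v i) (v (i + 1)) := by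
    intro v
    have h6 := Finset.prod_univ_sum (fun _ : ZMod n => (Finset.univ : Finset St))
      (fun i c => UU t (v i) c * DD t c (v (i + 1)))
    rw [Fintype.piFinset_univ] at h6
    simp only [Matrix.mul_apply]
    rw [h6]
    rfl
  rw [Finset.sum_congr rfl fun v _ => h5 v]
  obtain ⟨m, rfl⟩ : ∃ m, n = m + 1 := ⟨n - 1, by have := NeZero.ne n; omega⟩
  rw [← cyc_sum]
  rfl

/-- explicit transfer matrix, rows and columns in the order `Z, O, N, C` -/
def MM (t : ℝ) : Matrix St St ℝ := fun a b => match a, b with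
  | .Z, .Z => 2 + t | .Z, .O => 1 | .Z, .N => t + t ^ 2 | .Z, .C => t
  | .O, .Z => 1 | .O, .O => 1 | .O, .N => t | .O, .C => 0
  | .N, .Z => 2 + t | .N, .O => 1 | .N, .N => 2 * t + t ^ 2 | .N, .C => 1 + t
  | .C, .Z => 2 + t | .C, .O => 1 | .C, .N => 2 * t + t ^ 2 | .C, .C => 1 + t

theorem sum_St {R : Type*} [AddCommMonoid R] (f : St → R) :
    ∑ a, f a = f .Z + f .O + f .N + f .C := by
  have : (Finset.univ : Finset St) = {.Z, .O, .N, .C} := rfl
  rw [this, Finset.sum_insert (by simp), Finset.sum_insert (by simp), Finset.sum_insert (by simp),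
    Finset.sum_singleton]
  simp only [add_assoc]

theorem UD_eq (t : ℝ) : UU t * DD t = MM t := by
  ext a b
  rw [Matrix.mul_apply, sum_St]
  cases a <;> cases b <;> simp [UU, DD, MM, up, dn, wt] <;> ring

theorem MM_pow4 (t : ℝ) : MM t ^ 4 = (1 + ((1 + t) ^ 2 + 2 * (1 + t))) • MM t ^ 3 -
    (((1 + t) ^ 2 + 2 * (1 + t)) + (1 + t) ^ 2) • MM t ^ 2 + ((1 + t) ^ 2) • MM t := by
  have h2 : MM t ^ 2 = MM t * MM t := sq _
  have h3 : MM t ^ 3 = (MM t * MM t) * MM t := by rw [pow_succ, sq]
  have h4 : MM t ^ 4 = ((MM t * MM t) * MM t) * MM t := by rw [pow_succ, h3]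
  rw [h2, h3, h4]
  ext a b
  simp only [Matrix.add_apply, Matrix.sub_apply, Matrix.smul_apply, Matrix.mul_apply, sum_St,
    smul_eq_mul]
  cases a <;> cases b <;> simp only [MM] <;> ring

theorem trace_MM (t : ℝ) : ∀ n, ((MM t) ^ (n + 1)).trace = 1 + W (1 + t) (n + 1) := by
  have base : (MM t ^ 1).trace = 1 + W (1 + t) 1 ∧ (MM t ^ 2).trace = 1 + W (1 + t) 2 ∧
      (MM t ^ 3).trace = 1 + W (1 + t) 3 := by
    refine ⟨?_, ?_, ?_⟩
    · simp only [pow_one, Matrix.trace, Matrix.diag_apply, sum_St, MM, W]
      ring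
    · simp only [sq, Matrix.trace, Matrix.diag_apply, Matrix.mul_apply, sum_St, MM, W]
      ring
    · rw [show MM t ^ 3 = (MM t * MM t) * MM t by rw [pow_succ, sq]]
      simp only [Matrix.trace, Matrix.diag_apply, Matrix.mul_apply, sum_St, MM, W]
      ring
  have key : ∀ n, (MM t ^ (n + 1)).trace = 1 + W (1 + t) (n + 1) ∧
      (MM t ^ (n + 2)).trace = 1 + W (1 + t) (n + 2) ∧
      (MM t ^ (n + 3)).trace = 1 + W (1 + t) (n + 3) := by
    intro n
    induction n with
    | zero => exact base
    | succ n ih =>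
      refine ⟨ih.2.1, ih.2.2, ?_⟩
      have h : MM t ^ (n + 1 + 3) = (1 + ((1 + t) ^ 2 + 2 * (1 + t))) • MM t ^ (n + 3) -
          (((1 + t) ^ 2 + 2 * (1 + t)) + (1 + t) ^ 2) • MM t ^ (n + 2) +
            ((1 + t) ^ 2) • MM t ^ (n + 1) := by
        rw [show n + 1 + 3 = n + 4 by ring, pow_add, MM_pow4]
        rw [mul_add, mul_sub, mul_smul_comm, mul_smul_comm, mul_smul_comm, ← pow_add, ← pow_add,
          ← pow_succ]
      rw [h, Matrix.trace_add, Matrix.trace_sub, Matrix.trace_smul, Matrix.trace_smul,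
        Matrix.trace_smul, ih.1, ih.2.1, ih.2.2]
      have e1 : W (1 + t) (n + 3) = ((1 + t) ^ 2 + 2 * (1 + t)) * W (1 + t) (n + 2) -
        (1 + t) ^ 2 * W (1 + t) (n + 1) := by
        rw [show n + 3 = (n + 1) + 2 from rfl, W]
      have e2 : W (1 + t) (n + 1 + 3) = ((1 + t) ^ 2 + 2 * (1 + t)) * W (1 + t) (n + 3) -
        (1 + t) ^ 2 * W (1 + t) (n + 2) := by
        rw [show n + 1 + 3 = (n + 2) + 2 from rfl, W]
      rw [e2, e1]
      simp only [smul_eq_mul]
      ring
  exact fun n => (key n).1

open Classical in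
theorem sum_val' (n : ℕ) [NeZero n] (t : ℝ) :
    ∑ w : ZMod n × Bool → St, (if Val w then t ^ nN w else 0) = 1 + W (1 + t) n := by
  rw [sum_val, UD_eq]
  obtain ⟨m, rfl⟩ : ∃ m, n = m + 1 := ⟨n - 1, by have := NeZero.ne n; omega⟩
  exact trace_MM t m

end Pool.Agent.R916.OP
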